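import Pool.Agent.Helper64.SH.Row

/-!
# Project RC, SHARP, cell engine: the rows of the near multipliers

`CA q z a b e`: the Gaussian integer `a + i b` approximates `q z`. `rw_row3`: the linear part of the near quantity
(directions with the coefficients `X1, X2`) is the row `row3` of `X1 - X2`, `om X1 + om² X2`, `conj κ X1 + κ X2`.
`LR_mu`: its certificate. `S1Q_V`: the squares of the head arrays.
-/

open Finset

namespace Pool.Agent.Helper64.SH

open Helper95.SH Helper95.RC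
open Helper49.RC (om)

/-! ### approximation of a complex number -/

/-- `a + i b` approximates `q z` -/
def CA (q : ℝ) (z : ℂ) (a b : ℤ) (e : ℝ) : Prop := ‖(q : ℂ) * z - ci a b‖ ≤ e

theorem ci_add (a b c d : ℤ) : ci a b + ci c d = ci (a + c) (b + d) := by unfold ci; push_cast; ring
theorem ci_sub (a b c d : ℤ) : ci a b - ci c d = ci (a - c) (b - d) := by unfold ci; push_cast; ring
theorem ci_smul (k a b : ℤ) : (k : ℂ) * ci a b = ci (k * a) (k * b) := by unfold ci; push_cast; ring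
theorem ci_I (a b : ℤ) : Complex.I * ci a b = ci (-b) a := by
  unfold ci
  push_cast
  have := Complex.I_mul_I
  linear_combination (b : ℂ) * this

theorem CA.nonneg {q : ℝ} {z : ℂ} {a b : ℤ} {e : ℝ} (h : CA q z a b e) : 0 ≤ e := (norm_nonneg _).trans h

theorem CA.add {q : ℝ} {x y : ℂ} {a b c d : ℤ} {e e' : ℝ} (h : CA q x a b e) (k : CA q y c d e') :
    CA q (x + y) (a + c) (b + d) (e + e') := by
  unfold CA at *
  rw [← ci_add]
  have e1 : (q : ℂ) * (x + y) - (ci a b + ci c d) = ((q : ℂ) * x - ci a b) + ((q : ℂ) * y - ci c d) := by ring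
  rw [e1]
  exact (norm_add_le _ _).trans (add_le_add h k)

theorem CA.sub {q : ℝ} {x y : ℂ} {a b c d : ℤ} {e e' : ℝ} (h : CA q x a b e) (k : CA q y c d e') :
    CA q (x - y) (a - c) (b - d) (e + e') := by
  unfold CA at *
  rw [← ci_sub]
  have e1 : (q : ℂ) * (x - y) - (ci a b - ci c d) = ((q : ℂ) * x - ci a b) - ((q : ℂ) * y - ci c d) := by ring
  rw [e1]
  exact (norm_sub_le _ _).trans (add_le_add h k)

theorem CA.smul {q : ℝ} {x : ℂ} {a b : ℤ} {e : ℝ} (h : CA q x a b e) (k : ℤ) :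
    CA q ((k : ℂ) * x) (k * a) (k * b) (|(k : ℝ)| * e) := by
  unfold CA at *
  rw [← ci_smul]
  have e1 : (q : ℂ) * ((k : ℂ) * x) - (k : ℂ) * ci a b = (k : ℂ) * ((q : ℂ) * x - ci a b) := by ring
  rw [e1, norm_mul, Complex.norm_intCast]
  exact mul_le_mul_of_nonneg_left h (abs_nonneg _)

theorem CA.up {q : ℝ} {x : ℂ} {a b : ℤ} {e : ℝ} (h : CA q x a b e) (k : ℤ) :
    CA ((k : ℝ) * q) x (k * a) (k * b) (|(k : ℝ)| * e) := by
  have := h.smul k
  unfold CA at *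
  rw [show (((k : ℝ) * q : ℝ) : ℂ) * x = (q : ℂ) * ((k : ℂ) * x) by push_cast; ring]
  exact this

theorem CA.mono {q : ℝ} {z : ℂ} {a b : ℤ} {e e' : ℝ} (h : CA q z a b e) (he : e ≤ e') : CA q z a b e' := h.trans he

/-- the factors `om`, `om²`, `κ` -/
theorem om_eq : om = 1 / 2 + Complex.I * (Real.sqrt 3 / 2 : ℝ) := by
  have h1 : om.re = 1 / 2 := by
    unfold om Helper49.LT.ee
    rw [Complex.exp_ofReal_mul_I_re, Real.cos_pi_div_three]
  have h2 : om.im = Real.sqrt 3 / 2 := by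
    unfold om Helper49.LT.ee
    rw [Complex.exp_ofReal_mul_I_im, Real.sin_pi_div_three]
  apply Complex.ext
  · rw [h1]; simp
  · rw [h2]; simp

theorem sqrt3_sq : ((Real.sqrt 3 : ℝ) : ℂ) * (Real.sqrt 3 : ℝ) = 3 := by
  rw [← Complex.ofReal_mul, Real.mul_self_sqrt (by norm_num)]
  norm_num

theorem om2_eq : om ^ 2 = -(1 / 2) + Complex.I * (Real.sqrt 3 / 2 : ℝ) := by
  rw [om_eq]
  push_cast
  have h1 := Complex.I_mul_I
  have h2 := sqrt3_sq
  linear_combination ((Real.sqrt 3 : ℝ) : ℂ) * ((Real.sqrt 3 : ℝ) : ℂ) / 4 * h1 - 1 / 4 * h2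

theorem kq_eq : kq 2 = (Real.sqrt 3 : ℝ) + Complex.I * (1 / 4 : ℂ) := by
  unfold kq
  push_cast
  ring

theorem kq_conj : (starRingEnd ℂ) (kq 2) = (Real.sqrt 3 : ℝ) - Complex.I * (1 / 4 : ℂ) := by
  have h4 : (starRingEnd ℂ) (1 / 4 : ℂ) = 1 / 4 := by
    rw [map_div₀, map_one, map_ofNat]
  rw [kq_eq, map_add, map_mul, Complex.conj_I, Complex.conj_ofReal, h4]
  ring

/-- **the three combinations** (scale `4 q' q`, `T ≈ q' √3`) -/
theorem CA.combS {q : ℝ} {x y : ℂ} {a b c d : ℤ} {e : ℝ} (h : CA q x a b e) (k : CA q y c d e) (q' : ℕ) :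
    CA ((4 * q' : ℤ) * q) (x - y) (4 * q' * (a - c)) (4 * q' * (b - d)) (8 * q' * e) := by
  have := (h.sub k).up (4 * q' : ℤ)
  refine this.mono (le_of_eq ?_)
  push_cast
  rw [abs_of_nonneg (by positivity)]
  ring

theorem scaleE {q : ℝ} {x y : ℂ} {a b c d : ℤ} {e : ℝ} (h : CA q x a b e) (k : CA q y c d e) (u w : ℂ) :
    ‖(u * ((q : ℂ) * x) + w * ((q : ℂ) * y)) - (u * ci a b + w * ci c d)‖ ≤ (‖u‖ + ‖w‖) * e := by
  have e1 : (u * ((q : ℂ) * x) + w * ((q : ℂ) * y)) - (u * ci a b + w * ci c d) =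
      u * ((q : ℂ) * x - ci a b) + w * ((q : ℂ) * y - ci c d) := by ring
  rw [e1, add_mul]
  refine (norm_add_le _ _).trans (add_le_add ?_ ?_)
  · rw [norm_mul]; exact mul_le_mul_of_nonneg_left h (norm_nonneg _)
  · rw [norm_mul]; exact mul_le_mul_of_nonneg_left k (norm_nonneg _)

theorem norm_kq : ‖kq 2‖ = 7 / 4 := by
  have h1 := Helper30.SH.kq_two
  have h2 := norm_nonneg (kq 2)
  nlinarith [sq_nonneg (‖kq 2‖ - 7 / 4)]

theorem CA.combP {q : ℝ} {x y : ℂ} {a b c d : ℤ} {e δ M : ℝ} (h : CA q x a b e) (k : CA q y c d e) (q' : ℕ) (T : ℤ)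
    (hT : |(q' : ℝ) * Real.sqrt 3 - T| ≤ δ) (hM : ‖ci (a + c) (b + d)‖ ≤ M) :
    CA ((4 * q' : ℤ) * q) (om * x + om ^ 2 * y) (2 * (q' * (a - c) - T * (b + d))) (2 * (q' * (b - d) + T * (a + c)))
      (8 * q' * e + 2 * δ * M) := by
  have s := scaleE h k om (om ^ 2)
  rw [norm_pow, Helper30.SH.norm_om] at s
  unfold CA
  have e1 : (((4 * q' : ℤ) * q : ℝ) : ℂ) * (om * x + om ^ 2 * y) -
      ci (2 * (q' * (a - c) - T * (b + d))) (2 * (q' * (b - d) + T * (a + c))) =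
      4 * (q' : ℂ) * ((om * ((q : ℂ) * x) + om ^ 2 * ((q : ℂ) * y)) - (om * ci a b + om ^ 2 * ci c d)) +
      2 * Complex.I * ((((q' : ℝ) * Real.sqrt 3 - T : ℝ) : ℂ) * ci (a + c) (b + d)) := by
    rw [om2_eq, om_eq]
    unfold ci
    push_cast
    have h1 := Complex.I_mul_I
    ring_nf
    simp only [Complex.I_sq]
    ring
  rw [e1]
  refine (norm_add_le _ _).trans (add_le_add ?_ ?_)
  · rw [norm_mul, norm_mul, Complex.norm_ofNat, Complex.norm_natCast]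
    calc 4 * (q' : ℝ) * ‖_‖ ≤ 4 * (q' : ℝ) * ((1 + 1 ^ 2) * e) := mul_le_mul_of_nonneg_left s (by positivity)
      _ = 8 * q' * e := by ring
  · rw [norm_mul, norm_mul, norm_mul, Complex.norm_I, Complex.norm_ofNat, Complex.norm_real, Real.norm_eq_abs, mul_one,
      mul_assoc]
    exact mul_le_mul_of_nonneg_left (mul_le_mul hT hM (norm_nonneg _) ((abs_nonneg _).trans hT)) (by norm_num)

theorem CA.combR {q : ℝ} {x y : ℂ} {a b c d : ℤ} {e δ M : ℝ} (h : CA q x a b e) (k : CA q y c d e) (q' : ℕ) (T : ℤ)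
    (hT : |(q' : ℝ) * Real.sqrt 3 - T| ≤ δ) (hM : ‖ci (a + c) (b + d)‖ ≤ M) :
    CA ((4 * q' : ℤ) * q) ((starRingEnd ℂ) (kq 2) * x + kq 2 * y) (4 * T * (a + c) + q' * (b - d))
      (4 * T * (b + d) - q' * (a - c)) (14 * q' * e + 4 * δ * M) := by
  have s := scaleE h k ((starRingEnd ℂ) (kq 2)) (kq 2)
  rw [RCLike.norm_conj, norm_kq] at s
  unfold CA
  have e1 : (((4 * q' : ℤ) * q : ℝ) : ℂ) * ((starRingEnd ℂ) (kq 2) * x + kq 2 * y) -
      ci (4 * T * (a + c) + q' * (b - d)) (4 * T * (b + d) - q' * (a - c)) =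
      4 * (q' : ℂ) * (((starRingEnd ℂ) (kq 2) * ((q : ℂ) * x) + kq 2 * ((q : ℂ) * y)) -
        ((starRingEnd ℂ) (kq 2) * ci a b + kq 2 * ci c d)) +
      4 * ((((q' : ℝ) * Real.sqrt 3 - T : ℝ) : ℂ) * ci (a + c) (b + d)) := by
    rw [kq_conj, kq_eq]
    unfold ci
    push_cast
    ring_nf
    simp only [Complex.I_sq]
    ring
  rw [e1]
  refine (norm_add_le _ _).trans (add_le_add ?_ ?_)
  · rw [norm_mul, norm_mul, Complex.norm_ofNat, Complex.norm_natCast]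
    calc 4 * (q' : ℝ) * ‖_‖ ≤ 4 * (q' : ℝ) * ((7 / 4 + 7 / 4) * e) := mul_le_mul_of_nonneg_left s (by positivity)
      _ = 14 * q' * e := by ring
  · rw [norm_mul, norm_mul, Complex.norm_ofNat, Complex.norm_real, Real.norm_eq_abs, mul_assoc]
    exact mul_le_mul_of_nonneg_left (mul_le_mul hT hM (norm_nonneg _) ((abs_nonneg _).trans hT)) (by norm_num)

/-! ### the rows of the near quantity -/

/-- the linear part of the near quantity -/
noncomputable def rwN (N : ℕ) (X1 X2 p r s : ℤ → ℂ) : ℝ :=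
  (∑ n ∈ Finset.Icc (-(N : ℤ)) N, g1A p r s n * (starRingEnd ℂ) (X1 n)).re
  + (∑ n ∈ Finset.Icc (-(N : ℤ)) N, g2A p r s n * (starRingEnd ℂ) (X2 n)).re

theorem rw_row3 (N : ℕ) (X1 X2 p r s : ℤ → ℂ) : rwN N X1 X2 p r s =
    row3 N (om * (starRingEnd ℂ) (X1 0) + om ^ 2 * (starRingEnd ℂ) (X2 0)).re (fun n => X1 n - X2 n)
      (fun n => om * X1 n + om ^ 2 * X2 n) (fun n => (starRingEnd ℂ) (kq 2) * X1 n + kq 2 * X2 n) p r s := by
  unfold rwN row3
  rw [← Complex.add_re, ← Finset.sum_add_distrib, ← Complex.add_re]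
  congr 1
  have h0 : om * (starRingEnd ℂ) (X1 0) + om ^ 2 * (starRingEnd ℂ) (X2 0) =
      ∑ n ∈ Finset.Icc (-(N : ℤ)) N, (if n = 0 then om * (starRingEnd ℂ) (X1 n) + om ^ 2 * (starRingEnd ℂ) (X2 n) else 0) := by
    rw [Finset.sum_ite_eq' (Finset.Icc (-(N : ℤ)) N) (0 : ℤ), if_pos (by rw [Finset.mem_Icc]; omega)]
  rw [h0, ← Finset.sum_add_distrib]
  refine Finset.sum_congr rfl fun n _ => ?_
  unfold g1A g2A
  simp only [map_add, map_sub, map_mul, map_pow, Complex.conj_conj]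
  by_cases h : n = 0
  · rw [if_pos h, if_pos h]; ring
  · rw [if_neg h, if_neg h]; ring

theorem CA.conj {q : ℝ} {x : ℂ} {a b : ℤ} {e : ℝ} (h : CA q x a b e) : CA q ((starRingEnd ℂ) x) a (-b) e := by
  unfold CA at *
  have e1 : (q : ℂ) * (starRingEnd ℂ) x - ci a (-b) = (starRingEnd ℂ) ((q : ℂ) * x - ci a b) := by
    unfold ci
    rw [map_sub, map_mul, map_add, map_mul, Complex.conj_I, Complex.conj_ofReal, map_intCast,
      map_intCast]
    push_cast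
    ring
  rw [e1, RCLike.norm_conj]
  exact h

/-- the integer row of the near directions; `x1r, x1i, x2r, x2i` = the tables of the coefficients -/
def muRow (K L q' : ℕ) (T : ℤ) (x1r x1i x2r x2i : ℤ → ℤ) : ℕ → ℤ :=
  iRow K L (2 * (q' * (x1r 0 - x2r 0) + T * (x1i 0 + x2i 0)))
    (fun n => 4 * q' * (x1r n - x2r n)) (fun n => 4 * q' * (x1i n - x2i n))
    (fun n => 2 * (q' * (x1r n - x2r n) - T * (x1i n + x2i n)))
    (fun n => 2 * (q' * (x1i n - x2i n) + T * (x1r n + x2r n)))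
    (fun n => 4 * T * (x1r n + x2r n) + q' * (x1i n - x2i n))
    (fun n => 4 * T * (x1i n + x2i n) - q' * (x1r n - x2r n))

/-- **the certificate of the linear part of the near quantity** (scale `4 q' q`) -/
theorem LR_mu {K L N : ℕ} (hK : ¬ Even K) (hL : Even L) (hKN : K ≤ N) (hLN : L ≤ N) {q e δ M : ℝ} {X1 X2 : ℤ → ℂ}
    {x1r x1i x2r x2i : ℤ → ℤ} (h1 : ∀ n, CA q (X1 n) (x1r n) (x1i n) e) (h2 : ∀ n, CA q (X2 n) (x2r n) (x2i n) e)
    {q' : ℕ} {T : ℤ} (hT : |(q' : ℝ) * Real.sqrt 3 - T| ≤ δ) (hM : ∀ n, ‖ci (x1r n + x2r n) (x1i n + x2i n)‖ ≤ M) :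
    LR (nt K L) ((4 * q' : ℤ) * q) (fun v => rwN N X1 X2 (pV K L v) (rV K L v) (sV K v))
      (muRow K L q' T x1r x1i x2r x2i) (28 * q' * e + 8 * δ * M) := by
  have he : 0 ≤ e := (h1 0).nonneg
  have hδ : 0 ≤ δ := (abs_nonneg _).trans hT
  have hM0 : 0 ≤ M := (norm_nonneg _).trans (hM 0)
  have hδM : 0 ≤ δ * M := mul_nonneg hδ hM0
  have hq : (0 : ℝ) ≤ q' := Nat.cast_nonneg _
  have hqe : 0 ≤ q' * e := mul_nonneg hq he
  have hc := (h1 0).conj.combP (h2 0).conj q' T hT (M := M) (by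
    have e1 : ci (x1r 0 + x2r 0) (-x1i 0 + -x2i 0) = (starRingEnd ℂ) (ci (x1r 0 + x2r 0) (x1i 0 + x2i 0)) := by
      unfold ci
      rw [map_add, map_mul, Complex.conj_I, map_intCast, map_intCast]
      push_cast
      ring
    rw [e1, RCLike.norm_conj]
    exact hM 0)
  have hc2 := (ci_err hc).1
  have e2 : (2 * (q' * (x1r 0 - x2r 0) - T * (-x1i 0 + -x2i 0)) : ℤ) =
      2 * (q' * (x1r 0 - x2r 0) + T * (x1i 0 + x2i 0)) := by ring
  rw [e2] at hc2
  have main := LR_row (K := K) (L := L) (N := N) hK hL hKN hLN (q := (4 * q' : ℤ) * q) (e := 14 * q' * e + 4 * δ * M)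
    (c0 := (om * (starRingEnd ℂ) (X1 0) + om ^ 2 * (starRingEnd ℂ) (X2 0)).re)
    (S := fun n => X1 n - X2 n) (P := fun n => om * X1 n + om ^ 2 * X2 n)
    (R := fun n => (starRingEnd ℂ) (kq 2) * X1 n + kq 2 * X2 n)
    (c := 2 * (q' * (x1r 0 - x2r 0) + T * (x1i 0 + x2i 0)))
    (SR := fun n => 4 * q' * (x1r n - x2r n)) (SI := fun n => 4 * q' * (x1i n - x2i n))
    (PR := fun n => 2 * (q' * (x1r n - x2r n) - T * (x1i n + x2i n)))
    (PI := fun n => 2 * (q' * (x1i n - x2i n) + T * (x1r n + x2r n)))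
    (RR := fun n => 4 * T * (x1r n + x2r n) + q' * (x1i n - x2i n))
    (RI := fun n => 4 * T * (x1i n + x2i n) - q' * (x1r n - x2r n))
    (by positivity) (hc2.trans (by linarith))
    (fun n _ => ((h1 n).combS (h2 n) q').mono (by linarith))
    (fun n _ => ((h1 n).combP (h2 n) q' T hT (hM n)).mono (by linarith))
    (fun n _ => ((h1 n).combR (h2 n) q' T hT (hM n)).mono (by linarith))
  refine (LR.congr main (fun v _ => rw_row3 N X1 X2 _ _ _) (fun i _ => rfl)).mono (by linarith)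

/-! ### digits of a certified function -/

/-- the integer digits of the coefficient `n` -/
def dR (b : ℕ) (z : Helper54.RC.Fast.FP) (n : ℤ) : ℤ :=
  if -(z.N : ℤ) ≤ n ∧ n ≤ z.N then (Helper54.RC.Fast.dg b (n + z.N).toNat z.x : ℤ) - 2 ^ b else 0
def dI (b : ℕ) (z : Helper54.RC.Fast.FP) (n : ℤ) : ℤ :=
  if -(z.N : ℤ) ≤ n ∧ n ≤ z.N then (Helper54.RC.Fast.dg b (n + z.N).toNat z.y : ℤ) - 2 ^ b else 0

theorem cf_ci (b : ℕ) (z : Helper54.RC.Fast.FP) (n : ℤ) : Helper30.SH.cf b z n = ci (dR b z n) (dI b z n) := by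
  unfold Helper30.SH.cf dR dI ci
  by_cases h : -(z.N : ℤ) ≤ n ∧ n ≤ z.N
  · rw [if_pos (Finset.mem_Icc.2 h), if_pos h, if_pos h]
    unfold Helper54.RC.Fast.cc
    push_cast
    ring
  · rw [if_neg (fun h2 => h (Finset.mem_Icc.1 h2)), if_neg h, if_neg h]
    simp

open Helper87.RC (BM)
open Helper56.RC (fc)
open Helper54.RC.Fast (FP PF AP)

/-- all coefficients of a certified function -/
theorem CA_fc {b s : ℕ} {p : PF} {f : ℝ → ℂ} {C : ℝ} (hf : BM f C) (h : AP b s p f) (n : ℤ) :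
    CA (2 ^ s) (fc f n) (dR b p.z n) (dI b p.z n) p.er := by
  have h1 := Helper30.SH.coef_le hf h n
  have hs : (0 : ℝ) < 2 ^ s := by positivity
  unfold CA
  rw [← cf_ci]
  have e1 : (((2 : ℝ) ^ s : ℝ) : ℂ) * fc f n - Helper30.SH.cf b p.z n =
      (((2 : ℝ) ^ s : ℝ) : ℂ) * (fc f n - Helper30.SH.cf b p.z n / 2 ^ s) := by
    have : ((2 : ℂ) ^ s) ≠ 0 := pow_ne_zero _ two_ne_zero
    push_cast
    field_simp
  rw [e1, norm_mul, Complex.norm_real, Real.norm_eq_abs, abs_of_pos hs]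
  rw [le_div_iff₀ hs] at h1
  linarith

theorem fc_le {f : ℝ → ℂ} {C : ℝ} (hf : BM f C) (n : ℤ) : ‖fc f n‖ ≤ C := by
  have hC : 0 ≤ C := (norm_nonneg _).trans (hf.b 0)
  have h1 := Helper30.SH.sum_sq_le hf {n}
  rw [Finset.sum_singleton] at h1
  exact abs_le_of_sq_le_sq' h1 hC |>.2

theorem dsum_le {b s : ℕ} {p1 p2 : PF} {f1 f2 : ℝ → ℂ} (h1 : BM f1 1) (h2 : BM f2 1) (k1 : AP b s p1 f1)
    (k2 : AP b s p2 f2) (n : ℤ) :
    ‖ci (dR b p1.z n + dR b p2.z n) (dI b p1.z n + dI b p2.z n)‖ ≤ 2 * 2 ^ s + p1.er + p2.er := by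
  have a1 := CA_fc h1 k1 n
  have a2 := CA_fc h2 k2 n
  have b1 := fc_le h1 n
  have b2 := fc_le h2 n
  have hs : (0 : ℝ) < 2 ^ s := by positivity
  unfold CA at a1 a2
  rw [← ci_add]
  have c1 : ∀ (z w : ℂ) (e : ℝ), ‖z‖ ≤ 1 → ‖(((2 : ℝ) ^ s : ℝ) : ℂ) * z - w‖ ≤ e → ‖w‖ ≤ 2 ^ s + e := by
    intro z w e hz hw
    have e1 : w = (((2 : ℝ) ^ s : ℝ) : ℂ) * z - ((((2 : ℝ) ^ s : ℝ) : ℂ) * z - w) := by ring
    rw [e1]
    refine (norm_sub_le _ _).trans (add_le_add ?_ hw)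
    rw [norm_mul, Complex.norm_real, Real.norm_eq_abs, abs_of_pos hs]
    nlinarith
  refine (norm_add_le _ _).trans ?_
  have := c1 _ _ _ b1 a1
  have := c1 _ _ _ b2 a2
  linarith

/-- **the certificate for two certified directions** -/
theorem LR_mu_AP {K L N : ℕ} (hK : ¬ Even K) (hL : Even L) (hKN : K ≤ N) (hLN : L ≤ N) {b s : ℕ} {p1 p2 : PF}
    {f1 f2 : ℝ → ℂ} (h1 : BM f1 1) (h2 : BM f2 1) (k1 : AP b s p1 f1) (k2 : AP b s p2 f2) {e : ℝ}
    (e1 : (p1.er : ℝ) ≤ e) (e2 : (p2.er : ℝ) ≤ e) {q' : ℕ} {T : ℤ} {δ : ℝ} (hT : |(q' : ℝ) * Real.sqrt 3 - T| ≤ δ) :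
    LR (nt K L) ((4 * q' : ℤ) * 2 ^ s) (fun v => rwN N (fc f1) (fc f2) (pV K L v) (rV K L v) (sV K v))
      (muRow K L q' T (dR b p1.z) (dI b p1.z) (dR b p2.z) (dI b p2.z)) (28 * q' * e + 16 * δ * (2 ^ s + e)) := by
  have hδ : 0 ≤ δ := (abs_nonneg _).trans hT
  refine (LR_mu hK hL hKN hLN (fun n => (CA_fc h1 k1 n).mono e1) (fun n => (CA_fc h2 k2 n).mono e2) hT
    (M := 2 * (2 ^ s + e)) (fun n => (dsum_le h1 h2 k1 k2 n).trans (by linarith))).mono (by nlinarith)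

/-- `T = ⌊√(3 q'^2)⌋` -/
theorem sqrt3_T {q' T : ℕ} (h1 : T ^ 2 ≤ 3 * q' ^ 2) (h2 : 3 * q' ^ 2 ≤ (T + 1) ^ 2) :
    |(q' : ℝ) * Real.sqrt 3 - ((T : ℤ) : ℝ)| ≤ 1 := by
  have k1 : ((T : ℝ)) ^ 2 ≤ 3 * (q' : ℝ) ^ 2 := by exact_mod_cast h1
  have k2 : 3 * (q' : ℝ) ^ 2 ≤ ((T : ℝ) + 1) ^ 2 := by exact_mod_cast h2
  have e1 : (q' : ℝ) * Real.sqrt 3 = Real.sqrt (3 * (q' : ℝ) ^ 2) := by
    rw [Real.sqrt_mul (by norm_num), Real.sqrt_sq (Nat.cast_nonneg _)]
    ring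
  have a1 : (T : ℝ) ≤ Real.sqrt (3 * (q' : ℝ) ^ 2) := Real.le_sqrt_of_sq_le k1
  have a2 : Real.sqrt (3 * (q' : ℝ) ^ 2) ≤ (T : ℝ) + 1 := Real.sqrt_le_iff.2 ⟨by positivity, k2⟩
  rw [e1, Int.cast_natCast, abs_le]
  constructor <;> linarith

/-! ### constants, `p 0`, squares -/

/-- a constant functional -/
theorem LR_const {n : ℕ} (hn : 0 < n) {q x e : ℝ} {c : ℤ} (h : |q * x - c| ≤ e) :
    LR n q (fun _ => x) (fun i => if i = 0 then c else 0) e := by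
  refine ⟨fun i => if i = 0 then x else 0, fun v hv => ?_, fun i _ => ?_⟩
  · rw [Finset.sum_eq_single 0]
    · simp [hv]
    · intro j _ hj; simp [hj]
    · intro h; exact absurd (Finset.mem_range.2 hn) h
  · by_cases hi : i = 0
    · simp only [if_pos hi]; exact h
    · simp only [if_neg hi]
      simpa using (abs_nonneg _).trans h

theorem pV_zero (K L : ℕ) (v : ℕ → ℝ) : pV K L v 0 = (v (bp K) : ℂ) := by
  unfold pV hV
  rw [if_neg (by push Not; exact ⟨Even.zero, by rw [Finset.mem_Icc]; omega⟩), if_pos rfl]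

/-- the constant part of the near quantity: `b₂₀ - 2 - 1/5` -/
theorem LR_p0 (K L : ℕ) (Q c : ℤ) (hc : |(Q : ℝ) * (-(11 / 5)) - c| ≤ 1) :
    LR (nt K L) Q (fun v => (pV K L v 0).re - 2 - 1 / 5) (fun i => if i = 0 then c else if i = bp K then Q else 0) 1 := by
  have hb : bp K < nt K L := by unfold nt; omega
  have h1 : LR (nt K L) ((Q : ℝ) * 1) (fun v => v (bp K)) (fun j => Q * (if j = bp K then 1 else 0)) (|(Q : ℝ)| * 0) :=
    (LR.coord hb).up Q
  have h2 : LR (nt K L) Q (fun _ => (-(11 / 5) : ℝ)) (fun i => if i = 0 then c else 0) 1 :=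
    LR_const (by unfold nt; omega) hc
  rw [mul_one, mul_zero] at h1
  refine ((h1.add h2).mono (by norm_num)).congr (fun v _ => ?_) (fun i _ => ?_)
  · rw [pV_zero, Complex.ofReal_re]; ring
  · by_cases h0 : i = 0
    · have : ¬ (i = bp K) := by unfold bp; omega
      simp only [if_pos h0, if_neg this]; ring
    · by_cases h3 : i = bp K
      · simp only [if_neg h0, if_pos h3]; ring
      · simp only [if_neg h0, if_neg h3]; ring

/-- squares of a hermitian head array -/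
theorem S1Q_hV {L N : ℕ} (hL : Even L) (hLN : L ≤ N) (base : ℕ) (v : ℕ → ℝ) :
    S1Q N (hV L base v) = ∑ j ∈ Finset.range (L + 1), (if j = 0 then 1 else 2) * v (base + j) ^ 2 := by
  obtain ⟨l, hl⟩ := hL
  have hl2 : L = 2 * l := by omega
  subst hl2
  have e0 : hV (2 * l) base v 0 = (v base : ℂ) := by
    unfold hV
    rw [if_neg (by push Not; exact ⟨Even.zero, by rw [Finset.mem_Icc]; omega⟩), if_pos rfl]
  unfold S1Q
  rw [sum_h hLN, Finset.sum_range_succ', sum_pairs, add_comm]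
  · congr 1
    · refine Finset.sum_congr rfl fun j hj => ?_
      rw [Finset.mem_range] at hj
      have m1 : ¬ (¬ Even (2 * ((j : ℤ) + 1)) ∨ 2 * ((j : ℤ) + 1) ∉ Finset.Icc (-((2 * l : ℕ) : ℤ)) ((2 * l : ℕ) : ℤ)) := by
        push Not
        exact ⟨even_two_mul _, by rw [Finset.mem_Icc]; omega⟩
      have e1 : hV (2 * l) base v (2 * ((j : ℤ) + 1)) =
          (v (base + (2 * j + 1)) : ℂ) + Complex.I * (v (base + (2 * j + 1 + 1)) : ℂ) := by
        unfold hV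
        rw [if_neg m1, if_neg (by omega), if_pos (by omega)]
        have t : (2 * ((j : ℤ) + 1)).toNat = 2 * j + 1 + 1 := by omega
        rw [t]
        rfl
      rw [hV_neg, RCLike.norm_conj, e1, ← Complex.normSq_eq_norm_sq, Complex.normSq_apply]
      rw [if_neg (by omega), if_neg (by omega)]
      simp
      ring
    · rw [e0, Complex.norm_real, Real.norm_eq_abs, sq_abs, if_pos rfl, add_zero, one_mul]
  · intro n hn
    rw [hV_odd _ _ _ _ hn, norm_zero]; norm_num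
  · intro n hn
    rw [hV_sup _ _ _ n hn, norm_zero]; norm_num

theorem S1Q_pV {K L N : ℕ} (hL : Even L) (hLN : L ≤ N) (v : ℕ → ℝ) :
    S1Q N (pV K L v) = ∑ j ∈ Finset.range (L + 1), (if j = 0 then 1 else 2) * v (bp K + j) ^ 2 := S1Q_hV hL hLN _ v

theorem S1Q_rV {K L N : ℕ} (hL : Even L) (hLN : L ≤ N) (v : ℕ → ℝ) :
    S1Q N (rV K L v) = ∑ j ∈ Finset.range (L + 1), (if j = 0 then 1 else 2) * v (br K L + j) ^ 2 := S1Q_hV hL hLN _ v

theorem S1Q_sV {K N : ℕ} (hK : ¬ Even K) (hKN : K ≤ N) (v : ℕ → ℝ) :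
    S1Q N (sV K v) = ∑ j ∈ Finset.range (2 * (K + 1)), v (1 + j) ^ 2 := by
  obtain ⟨k, hk⟩ := Nat.not_even_iff_odd.1 hK
  subst hk
  unfold S1Q
  rw [sum_s hKN, sum_pairs]
  · refine Finset.sum_congr rfl fun j hj => ?_
    rw [Finset.mem_range] at hj
    have e1 : sV (2 * k + 1) v (2 * (j : ℤ) - ((2 * k + 1 : ℕ) : ℤ)) =
        (v (1 + 2 * j) : ℂ) + Complex.I * (v (1 + (2 * j + 1)) : ℂ) := by
      unfold sV
      rw [if_neg]
      · have t : (2 * (j : ℤ) - ((2 * k + 1 : ℕ) : ℤ) + ((2 * k + 1 : ℕ) : ℤ)).toNat = 2 * j := by omega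
        rw [t]
        have t2 : 2 + 2 * j = 1 + (2 * j + 1) := by omega
        rw [t2]
      · push Not
        refine ⟨?_, by rw [Finset.mem_Icc]; omega⟩
        rw [Int.not_even_iff_odd]
        exact ⟨(j : ℤ) - k - 1, by push_cast; ring⟩
    rw [e1, ← Complex.normSq_eq_norm_sq, Complex.normSq_apply]
    simp
    ring
  · intro n hn
    rw [sV_even _ _ _ hn, norm_zero]; norm_num
  · intro n hn
    rw [sV_sup _ _ n hn, norm_zero]; norm_num

/-! ### the near quantities -/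

theorem NrA_eq (d1 d2 : ℝ → ℂ) (N : ℕ) (p r s : ℤ → ℂ) :
    NrA d1 d2 N p r s = rwN N (fc d1) (fc d2) p r s + ((p 0).re - 2 - 1 / 5) + 3 / 4 * S1Q N p := by
  unfold NrA rwN S1Q; ring

theorem NrLA_eq {P : Helper49.Sharp.Par} {K : ℕ} (L : Lo P K) (N : ℕ) (p r s : ℤ → ℂ) :
    NrLA L N p r s = rwN N (fc P.u1) (fc P.u2) p r s + ((p 0).re - 2 - 1 / 5) + 3 / 4 * S1Q N p
      + 1 / 2 * Lo1A L N p r s := by
  unfold NrLA rwN; ring

end Pool.Agent.Helper64.SH
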