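import Pool.Agent.Helper33.SH.Inst
import Pool.Agent.Helper40.NR.Base
import Pool.Agent.Helper95.SH.Cont1

/-!
# Project RC, SHARP, zone I: the Fourier coefficients of the two families at the base

`aC_eq`, `bC_eq`: the coefficients `c1 2`, `c2 2` of `w`, `w b₀`, `w z₀` are the explicit polynomials `aC`, `bC` of
helper40. The sequences are given by lists of polynomials (`sk`), the comparison is done in the kernel.
-/

set_option autoImplicit false

namespace Pool.Agent.Helper64.SH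

open Helper49.LT hiding sg s3
open Helper49.RC (om)
open Helper87.RC (BM fc_add fc_cmul)
open Helper56.RC (fc)
open Helper95.RC (wc c1 c2 kq)
open Helper95.SH (pr qr wm)
open Pool.Agent.Helper20.RC (wR fc_eek)
open Pool.Agent.Helper33.SH (z0I b0I cI)
open Pool.Agent.Helper43.SH (zB b2B b3B bB zB_eq b2B_eq b3B_eq bB_re bB_im)
open Pool.Agent.Helper40.NR

/-! ### trigonometric polynomials given by lists -/

/-- value of a trigonometric polynomial -/
noncomputable def TP (l : List (ℤ × ℂ)) (t : ℝ) : ℂ := (l.map fun x => x.2 * ee ((x.1 : ℝ) * t)).sum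

theorem TP_cons (x : ℤ × ℂ) (l : List (ℤ × ℂ)) :
    TP (x :: l) = fun t => x.2 * ee ((x.1 : ℝ) * t) + TP l t := by
  funext t
  simp [TP]

theorem TP_bm : ∀ l : List (ℤ × ℂ), ∃ C, BM (TP l) C
  | [] => ⟨0, measurable_const, fun t => by simp [TP]⟩
  | x :: l => by
    obtain ⟨C, hC⟩ := TP_bm l
    refine ⟨‖x.2‖ * 1 + C, ?_⟩
    rw [TP_cons]
    exact ((BM.eec (x.1 : ℝ)).cmul x.2).add hC

theorem fc_TP (n : ℤ) : ∀ l : List (ℤ × ℂ), fc (TP l) n = (l.map fun x => if x.1 = n then x.2 else 0).sum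
  | [] => by
    have e : TP [] = fun t => (0 : ℂ) * ee ((0 : ℝ) * t) := by funext t; simp [TP]
    rw [e, fc_cmul]
    simp
  | x :: l => by
    obtain ⟨C, hC⟩ := TP_bm l
    rw [TP_cons, fc_add ((BM.eec (x.1 : ℝ)).cmul x.2) hC, fc_cmul, fc_eek, fc_TP n l]
    simp only [List.map_cons, List.sum_cons, mul_ite, mul_one, mul_zero, eq_comm (a := n)]

/-- the coefficient of a sequence given by a list of polynomials -/
def sk : List (ℤ × PZ) → ℤ → PZ
  | [], _ => []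
  | x :: l, n => if x.1 = n then addP x.2 (sk l n) else sk l n

theorem evP_sk (A : ℝ) (B : ℂ) (n : ℤ) : ∀ l : List (ℤ × PZ),
    evP A B (sk l n) = (l.map fun x => if x.1 = n then evP A B x.2 else 0).sum
  | [] => by simp [sk]
  | x :: l => by
    rw [sk]
    split_ifs with h
    · rw [evP_add, evP_sk A B n l]
      simp [h]
    · rw [evP_sk A B n l]
      simp [h]

theorem sk_out (n : ℤ) : ∀ l : List (ℤ × PZ), (∀ x ∈ l, x.1 ≠ n) → sk l n = []
  | [], _ => rfl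
  | x :: l, h => by
    rw [sk, if_neg (h x (by simp)), sk_out n l fun y hy => h y (by simp [hy])]

theorem lk_out (n : ℤ) : ∀ l : List (ℤ × PZ), (∀ x ∈ l, x.1 ≠ n) → lk l n = []
  | [], _ => rfl
  | x :: l, h => by
    rw [lk, if_neg (h x (by simp)), lk_out n l fun y hy => h y (by simp [hy])]

/-- a function which is given by a list of polynomials with the denominator `D` -/
theorem fc_list {f : ℝ → ℂ} (A : ℝ) (B : ℂ) (D : ℂ) (l : List (ℤ × PZ))
    (h : ∀ t, f t = ((l.map fun x => evP A B x.2 * ee ((x.1 : ℝ) * t)).sum) / D) (n : ℤ) :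
    fc f n = evP A B (sk l n) / D := by
  have e : f = fun t => D⁻¹ * TP (l.map fun x => (x.1, evP A B x.2)) t := by
    funext t
    rw [h t, TP, List.map_map, div_eq_inv_mul]
    rfl
  rw [e, fc_cmul, fc_TP, evP_sk, List.map_map, div_eq_inv_mul]
  rfl

/-! ### the base -/

/-- `η` -/
def etaL : PZ := [((1, 0, 1), (-2, 0, 0, 0))]
/-- `conj η` -/
def etaC : PZ := [((1, 1, 0), (-2, 0, 0, 0))]
/-- the weight -/
def wL : List (ℤ × PZ) := [(0, [((0, 0, 0), (1, 0, 0, 0))]), (2, etaL), (-2, etaC)]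
/-- `200 b₂` -/
def b2L : List (ℤ × PZ) :=
  [(0, [((2, 0, 0), (33, 0, 0, 0)), ((0, 1, 1), (-45, 0, 0, 0))]),
   (2, [((1, 0, 1), (-62, 0, 0, 0))]), (-2, [((1, 1, 0), (-62, 0, 0, 0))]),
   (6, [((2, 0, 0), (-11, 0, 0, 0))]), (-6, [((2, 0, 0), (-11, 0, 0, 0))]),
   (8, [((1, 0, 1), (57, 0, 0, 0))]), (-8, [((1, 1, 0), (57, 0, 0, 0))]),
   (10, [((0, 0, 2), (10, 0, 0, 0))]), (-10, [((0, 2, 0), (10, 0, 0, 0))])]
/-- `200 b₃` -/
def b3L : List (ℤ × PZ) :=
  [(2, [((1, 0, 1), (0, 0, -76, 0))]), (-2, [((1, 1, 0), (0, 0, 76, 0))]),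
   (6, [((2, 0, 0), (0, 0, -56, 0))]), (-6, [((2, 0, 0), (0, 0, 56, 0))]),
   (8, [((1, 0, 1), (0, 0, 102, 0))]), (-8, [((1, 1, 0), (0, 0, -102, 0))]),
   (10, [((0, 0, 2), (0, 0, -9, 0))]), (-10, [((0, 2, 0), (0, 0, 9, 0))])]
/-- `2 z₀` -/
def zL : List (ℤ × PZ) :=
  [(-3, [((1, 0, 0), (2, 0, 0, 0))]), (-5, [((0, 1, 0), (2, 0, 0, 0))]), (5, [((0, 0, 1), (-1, 0, 0, 0))])]

section

variable (A : ℝ) (B : ℂ)

private theorem cj2 : (starRingEnd ℂ) (2 : ℂ) = 2 := Complex.conj_ofReal 2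
private theorem cj3 : (starRingEnd ℂ) (3 : ℂ) = 3 := Complex.conj_ofReal 3
private theorem ee0 : ee 0 = 1 := by simp [ee]

theorem ev_eta : evP A B etaL = -2 * A * (starRingEnd ℂ) B := by
  simp [etaL, ev4, evM]
  ring

theorem ev_etaC : evP A B etaC = (starRingEnd ℂ) (-2 * A * (starRingEnd ℂ) B) := by
  simp [etaC, ev4, evM, cj2]
  ring

theorem wc_base (n : ℤ) : wc (wR (-2 * A * (starRingEnd ℂ) B) 0 0) n = evP A B (sk wL n) := by
  have h := fc_list (f := fun t => (wR (-2 * A * (starRingEnd ℂ) B) 0 0 t : ℂ)) A B 1 wL (fun t => by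
    rw [Helper95.SH.wR_c]
    simp only [wL, List.map_cons, List.map_nil, List.sum_cons, List.sum_nil, ev_eta, ev_etaC]
    simp [ev4, evM, evP, ee0]) n
  rw [div_one] at h
  exact h

/-- twice the real part -/
private theorem two_re (x : ℂ) : ((2 * x.re : ℝ) : ℂ) = x + (starRingEnd ℂ) x := (Complex.add_conj x).symm

theorem pr_base (n : ℤ) : pr (b0I A B) n = evP A B (sk b2L n) / 200 := by
  refine fc_list A B 200 b2L (fun t => ?_) n
  rw [b0I, bB_re, b2B_eq, Complex.ofReal_add, two_re]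
  simp only [cI, b2L, List.map_cons, List.map_nil, List.sum_cons, List.sum_nil, evP_cons, evP_nil, map_add, map_mul,
    Pool.Agent.Helper43.SH.conj_ee, Complex.conj_conj, Complex.conj_ofReal]
  simp [ev4, evM, ← Complex.mul_conj', ee0]
  ring

theorem qr_base (n : ℤ) : qr (b0I A B) n = evP A B (sk b3L n) / 200 := by
  refine fc_list A B 200 b3L (fun t => ?_) n
  rw [b0I, bB_im, b3B_eq, two_re]
  simp only [cI, b3L, List.map_cons, List.map_nil, List.sum_cons, List.sum_nil, evP_cons, evP_nil, map_add, map_mul,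
    Pool.Agent.Helper43.SH.conj_ee, Complex.conj_conj, Complex.conj_ofReal, Complex.conj_I]
  simp [ev4, evM]
  ring

theorem z_base (n : ℤ) : fc (z0I A B) n = evP A B (sk zL n) / 2 := by
  refine fc_list A B 2 zL (fun t => ?_) n
  rw [z0I, zB_eq]
  simp [zL, evP, ev4, evM]
  ring

end

/-! ### the computation -/

/-- multiplication by the weight -/
def wmL (l : List (ℤ × PZ)) (n : ℤ) : PZ :=
  addP (sk l n) (addP (mulP etaL (sk l (n - 2))) (mulP etaC (sk l (n + 2))))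

theorem ev_wmL (A : ℝ) (B : ℂ) (D : ℂ) (l : List (ℤ × PZ)) (f : ℤ → ℂ) (h : ∀ n, f n = evP A B (sk l n) / D)
    (n : ℤ) : wm (-2 * A * (starRingEnd ℂ) B) f n = evP A B (wmL l n) / D := by
  rw [wmL, evP_add, evP_add, evP_mul, evP_mul, ev_eta, ev_etaC, wm, h, h, h]
  ring

/-- `2 ee (-m π/3)` -/
def e6 (m : ℤ) : Z4 :=
  if m % 6 = 0 then (2, 0, 0, 0) else if m % 6 = 1 then (1, 0, 0, -1) else if m % 6 = 2 then (-1, 0, 0, -1)
  else if m % 6 = 3 then (-2, 0, 0, 0) else if m % 6 = 4 then (-1, 0, 0, 1) else (1, 0, 0, 1)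

/-- `1600 c1` -/
def c1L (m : ℤ) : PZ :=
  smP (e6 m) (addP (smP (400, 0, 0, 400) (sk wL (m - 1))) (addP (smP (2, 0, 0, -2) (wmL b2L (m - 1)))
    (addP (smP (0, 4, 1, 0) (wmL b3L (m - 1))) (smP (400, 0, 0, 0) (wmL zL (m - 1))))))

/-- `1600 c2` -/
def c2L (m : ℤ) : PZ :=
  smP (e6 (2 * m)) (addP (smP (-400, 0, 0, 400) (sk wL (m - 1))) (addP (smP (-2, 0, 0, -2) (wmL b2L (m - 1)))
    (addP (smP (0, 4, -1, 0) (wmL b3L (m - 1))) (smP (-400, 0, 0, 0) (wmL zL (m - 1))))))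

theorem om_v : om = (1 + Complex.I * ((Real.sqrt 3 : ℝ) : ℂ)) / 2 := by
  rw [Helper95.RC.om_val]
  push_cast
  ring

theorem om_cj : (starRingEnd ℂ) om = (1 - Complex.I * ((Real.sqrt 3 : ℝ) : ℂ)) / 2 := by
  rw [Helper95.RC.om_conj]
  push_cast
  ring

theorem om_c2 : (starRingEnd ℂ) om ^ 2 = -om := by
  rw [Helper95.RC.om_conj_sq, Helper95.RC.om_val]
  ring

theorem om_s2 : om ^ 2 = -(starRingEnd ℂ) om := by
  rw [Helper95.RC.om_sq, Helper95.RC.om_conj]
  ring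

theorem ee_pow (m : ℤ) : ee (-(m : ℝ) * (Real.pi / 3)) = (starRingEnd ℂ) om ^ m := by
  unfold om ee
  rw [← Complex.exp_conj, ← Complex.exp_int_mul]
  congr 1
  simp [cj3]
  ring

theorem e6_eq (m : ℤ) : ev4 (e6 m) = 2 * ee (-(m : ℝ) * (Real.pi / 3)) := by
  have hne : (starRingEnd ℂ) om ≠ 0 := by
    intro h
    have h2 := congrArg (fun z => ‖z‖) h
    simp only [RCLike.norm_conj, norm_zero] at h2
    have h3 := Pool.Agent.Helper33.SH.om_norm
    rw [h3] at h2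
    exact one_ne_zero h2
  have h3 : (starRingEnd ℂ) om ^ 3 = -1 := by
    have e : (starRingEnd ℂ) om ^ 3 = (starRingEnd ℂ) (om ^ 3) := by rw [map_pow]
    rw [e, Pool.Agent.Helper33.SH.om_cube]
    simp
  have h6 : (starRingEnd ℂ) om ^ (6 : ℤ) = 1 := by
    have e : (starRingEnd ℂ) om ^ (6 : ℤ) = ((starRingEnd ℂ) om ^ 3) ^ 2 := by
      rw [← pow_mul]
      norm_cast
    rw [e, h3]
    norm_num
  have hm : (starRingEnd ℂ) om ^ m = (starRingEnd ℂ) om ^ (m % 6) := by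
    conv_lhs => rw [← Int.emod_add_mul_ediv m 6]
    rw [zpow_add₀ hne, zpow_mul, h6, one_zpow, mul_one]
  rw [ee_pow, hm]
  have h1 := Int.emod_nonneg m (by norm_num : (6 : ℤ) ≠ 0)
  have h2 := Int.emod_lt_of_pos m (by norm_num : (0 : ℤ) < 6)
  have hs : (starRingEnd ℂ) om ^ 2 = -om := om_c2
  unfold e6
  generalize m % 6 = k at h1 h2
  interval_cases k
  · simp [ev4]
  · rw [zpow_one, om_cj]
    simp [ev4]
    ring
  · have e : (starRingEnd ℂ) om ^ (2 : ℤ) = -om := by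
      rw [← hs]
      norm_cast
    rw [e, om_v]
    simp [ev4]
    ring
  · have e : (starRingEnd ℂ) om ^ (3 : ℤ) = -1 := by
      rw [← h3]
      norm_cast
    rw [e]
    simp [ev4]
  · have e : (starRingEnd ℂ) om ^ (4 : ℤ) = -(starRingEnd ℂ) om := by
      have : (starRingEnd ℂ) om ^ (4 : ℤ) = (starRingEnd ℂ) om ^ 3 * (starRingEnd ℂ) om := by
        rw [← pow_succ]
        norm_cast
      rw [this, h3]
      ring
    rw [e, om_cj]
    simp [ev4]
    ring
  · have e : (starRingEnd ℂ) om ^ (5 : ℤ) = om := by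
      have : (starRingEnd ℂ) om ^ (5 : ℤ) = (starRingEnd ℂ) om ^ 3 * (starRingEnd ℂ) om ^ 2 := by
        rw [← pow_add]
        norm_cast
      rw [this, h3, hs]
      ring
    rw [e, om_v]
    simp [ev4]
    ring

section

variable (A : ℝ) (B : ℂ)

theorem c1_list (m : ℤ) :
    c1 2 (wc (wR (-2 * A * (starRingEnd ℂ) B) 0 0)) (wm (-2 * A * (starRingEnd ℂ) B) (pr (b0I A B)))
      (wm (-2 * A * (starRingEnd ℂ) B) (qr (b0I A B))) (wm (-2 * A * (starRingEnd ℂ) B) (fc (z0I A B))) m =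
      evP A B (c1L m) / 1600 := by
  rw [c1L, evP_sm, evP_add, evP_add, evP_add, evP_sm, evP_sm, evP_sm, evP_sm, e6_eq, c1, wc_base,
    ev_wmL A B 200 b2L _ (pr_base A B), ev_wmL A B 200 b3L _ (qr_base A B), ev_wmL A B 2 zL _ (z_base A B)]
  rw [om_cj, om_v, kq]
  simp only [ev4]
  push_cast
  ring

theorem c2_list (m : ℤ) :
    c2 2 (wc (wR (-2 * A * (starRingEnd ℂ) B) 0 0)) (wm (-2 * A * (starRingEnd ℂ) B) (pr (b0I A B)))
      (wm (-2 * A * (starRingEnd ℂ) B) (qr (b0I A B))) (wm (-2 * A * (starRingEnd ℂ) B) (fc (z0I A B))) m =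
      evP A B (c2L m) / 1600 := by
  have e : ee (-(m : ℝ) * (2 * Real.pi / 3)) = ee (-((2 * m : ℤ) : ℝ) * (Real.pi / 3)) := by
    congr 1
    push_cast
    ring
  rw [c2L, evP_sm, evP_add, evP_add, evP_add, evP_sm, evP_sm, evP_sm, evP_sm, e6_eq, c2, wc_base,
    ev_wmL A B 200 b2L _ (pr_base A B), ev_wmL A B 200 b3L _ (qr_base A B), ev_wmL A B 2 zL _ (z_base A B), e]
  rw [om_s2, om_c2, om_cj, om_v, kq]
  simp only [ev4, map_add, map_mul, Complex.conj_I, Complex.conj_ofReal]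
  push_cast
  ring

end

/-- the comparison -/
theorem chk : ((List.range 41).all fun j => eqP 1 1 (c1L ((j : ℤ) - 20)) (lk aL ((j : ℤ) - 20)) &&
    eqP 1 1 (c2L ((j : ℤ) - 20)) (lk bL ((j : ℤ) - 20))) = true := by decide +kernel

theorem keys : (∀ x ∈ aL, |x.1| ≤ 17) ∧ (∀ x ∈ bL, |x.1| ≤ 17) ∧ (∀ x ∈ wL, |x.1| ≤ 17) ∧ (∀ x ∈ b2L, |x.1| ≤ 17) ∧
    (∀ x ∈ b3L, |x.1| ≤ 17) ∧ (∀ x ∈ zL, |x.1| ≤ 17) := by decide +kernel

theorem sk_far {l : List (ℤ × PZ)} (h : ∀ x ∈ l, |x.1| ≤ 17) {n : ℤ} (hn : 17 < |n|) : sk l n = [] :=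
  sk_out n l fun x hx he => by
    have := h x hx
    rw [he] at this
    linarith

theorem lk_far {l : List (ℤ × PZ)} (h : ∀ x ∈ l, |x.1| ≤ 17) {n : ℤ} (hn : 17 < |n|) : lk l n = [] :=
  lk_out n l fun x hx he => by
    have := h x hx
    rw [he] at this
    linarith

theorem wmL_far {l : List (ℤ × PZ)} (h : ∀ x ∈ l, |x.1| ≤ 17) {n : ℤ} (hn : 19 < |n|) : wmL l n = [] := by
  have h1 : 17 < |n - 2| := by
    rcases abs_cases n with h | h <;> rcases abs_cases (n - 2) with h' | h' <;> omega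
  have h2 : 17 < |n + 2| := by
    rcases abs_cases n with h | h <;> rcases abs_cases (n + 2) with h' | h' <;> omega
  rw [wmL, sk_far h (by linarith), sk_far h h1, sk_far h h2]
  rfl

theorem near_or (m : ℤ) : (∃ j ∈ List.range 41, m = (j : ℤ) - 20) ∨ 20 < |m| := by
  by_cases h : |m| ≤ 20
  · left
    have h' := abs_le.1 h
    exact ⟨(m + 20).toNat, by rw [List.mem_range]; omega, by omega⟩
  · right
    exact not_le.1 h

theorem c1_lk (A : ℝ) (B : ℂ) (m : ℤ) : evP A B (c1L m) = evP A B (lk aL m) := by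
  rcases near_or m with ⟨j, hj, rfl⟩ | h
  · have h1 := List.all_eq_true.1 chk j hj
    rw [Bool.and_eq_true] at h1
    have h2 := evP_eq h1.1 A B one_ne_zero one_ne_zero
    simpa using h2
  · have h1 : 19 < |m - 1| := by
      rcases abs_cases m with h | h <;> rcases abs_cases (m - 1) with h' | h' <;> omega
    obtain ⟨k1, k2, k3, k4, k5, k6⟩ := keys
    rw [lk_far k1 (by linarith), c1L, sk_far k3 (by linarith), wmL_far k4 h1, wmL_far k5 h1, wmL_far k6 h1]
    rfl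

theorem c2_lk (A : ℝ) (B : ℂ) (m : ℤ) : evP A B (c2L m) = evP A B (lk bL m) := by
  rcases near_or m with ⟨j, hj, rfl⟩ | h
  · have h1 := List.all_eq_true.1 chk j hj
    rw [Bool.and_eq_true] at h1
    have h2 := evP_eq h1.2 A B one_ne_zero one_ne_zero
    simpa using h2
  · have h1 : 19 < |m - 1| := by
      rcases abs_cases m with h | h <;> rcases abs_cases (m - 1) with h' | h' <;> omega
    obtain ⟨k1, k2, k3, k4, k5, k6⟩ := keys
    rw [lk_far k2 (by linarith), c2L, sk_far k3 (by linarith), wmL_far k4 h1, wmL_far k5 h1, wmL_far k6 h1]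
    rfl

/-- (T-B), the family 1 -/
theorem aC_eq (A : ℝ) (B : ℂ) (m : ℤ) :
    c1 2 (wc (wR (-2 * A * (starRingEnd ℂ) B) 0 0)) (wm (-2 * A * (starRingEnd ℂ) B) (pr (b0I A B)))
      (wm (-2 * A * (starRingEnd ℂ) B) (qr (b0I A B))) (wm (-2 * A * (starRingEnd ℂ) B) (fc (z0I A B))) m =
      aC A B m := by
  rw [c1_list, c1_lk, aC]

/-- (T-B), the family 2 -/
theorem bC_eq (A : ℝ) (B : ℂ) (m : ℤ) :
    c2 2 (wc (wR (-2 * A * (starRingEnd ℂ) B) 0 0)) (wm (-2 * A * (starRingEnd ℂ) B) (pr (b0I A B)))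
      (wm (-2 * A * (starRingEnd ℂ) B) (qr (b0I A B))) (wm (-2 * A * (starRingEnd ℂ) B) (fc (z0I A B))) m =
      bC A B m := by
  rw [c2_list, c2_lk, bC]

end Pool.Agent.Helper64.SH
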