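import Pool.Agent.Helper95.SH.Cell
import Pool.Agent.Helper30.SH.ZRow

/-!
# Project RC, SHARP, cell engine: a general complex row in real coordinates

For arrays `S, P, R : ℤ → ℂ` and a real `c0` the functional
`c0 + Re ∑ (s_n conj S_n + p_n conj P_n + r_n conj R_n)` of the head arrays `s = sV K v`, `p = pV K L v`, `r = rV K L v`
is `∑ i, rho K L c0 S P R i * v i`; `iRow` is the same row with integers, `LR_row` the certificate.
-/

open Finset

namespace Pool.Agent.Helper64.SH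

open Helper95.SH Helper95.RC

/-! ### sums -/

theorem sum_s {M : Type*} [AddCommMonoid M] {k N : ℕ} (hN : 2 * k + 1 ≤ N) (f : ℤ → M) (he : ∀ n, Even n → f n = 0)
    (hs : ∀ n, n ∉ Finset.Icc (-((2 * k + 1 : ℕ) : ℤ)) ((2 * k + 1 : ℕ) : ℤ) → f n = 0) :
    ∑ n ∈ Finset.Icc (-(N : ℤ)) N, f n = ∑ j ∈ Finset.range (2 * k + 2), f (2 * (j : ℤ) - ((2 * k + 1 : ℕ) : ℤ)) := by
  rw [← Finset.sum_image (s := Finset.range (2 * k + 2)) (g := fun j : ℕ => 2 * (j : ℤ) - ((2 * k + 1 : ℕ) : ℤ)) (f := f)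
    (by intro a _ b _ h; simp only at h; omega)]
  symm
  apply Finset.sum_subset
  · intro n hn
    rw [Finset.mem_image] at hn
    obtain ⟨j, hj, rfl⟩ := hn
    rw [Finset.mem_range] at hj
    rw [Finset.mem_Icc]
    omega
  · intro n _ hn
    by_cases h1 : Even n
    · exact he n h1
    · apply hs
      intro h2
      apply hn
      rw [Finset.mem_Icc] at h2
      obtain ⟨a, ha⟩ := Int.not_even_iff_odd.1 h1
      rw [Finset.mem_image]
      exact ⟨(a + k + 1).toNat, by rw [Finset.mem_range]; omega, by omega⟩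

theorem sum_h {M : Type*} [AddCommMonoid M] {l N : ℕ} (hN : 2 * l ≤ N) (f : ℤ → M) (he : ∀ n, ¬ Even n → f n = 0)
    (hs : ∀ n, n ∉ Finset.Icc (-((2 * l : ℕ) : ℤ)) ((2 * l : ℕ) : ℤ) → f n = 0) :
    ∑ n ∈ Finset.Icc (-(N : ℤ)) N, f n =
      f 0 + ∑ j ∈ Finset.range l, (f (2 * ((j : ℤ) + 1)) + f (-(2 * ((j : ℤ) + 1)))) := by
  have h1 : ∑ n ∈ Finset.Icc (-(N : ℤ)) N, f n =
      ∑ n ∈ insert (0 : ℤ) ((Finset.range l).image (fun j : ℕ => 2 * ((j : ℤ) + 1)) ∪
        (Finset.range l).image (fun j : ℕ => -(2 * ((j : ℤ) + 1)))), f n := by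
    symm
    apply Finset.sum_subset
    · intro n hn
      rw [Finset.mem_insert, Finset.mem_union, Finset.mem_image, Finset.mem_image] at hn
      rw [Finset.mem_Icc]
      rcases hn with h | ⟨j, hj, rfl⟩ | ⟨j, hj, rfl⟩
      · omega
      · rw [Finset.mem_range] at hj; omega
      · rw [Finset.mem_range] at hj; omega
    · intro n _ hn
      by_cases h1 : ¬ Even n
      · exact he n h1
      · apply hs
        intro h2
        apply hn
        rw [Finset.mem_Icc] at h2
        push Not at h1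
        obtain ⟨a, ha⟩ := h1
        rw [Finset.mem_insert, Finset.mem_union, Finset.mem_image, Finset.mem_image]
        rcases lt_trichotomy a 0 with h | h | h
        · right; right
          exact ⟨(-a - 1).toNat, by rw [Finset.mem_range]; omega, by omega⟩
        · left; omega
        · right; left
          exact ⟨(a - 1).toNat, by rw [Finset.mem_range]; omega, by omega⟩
  rw [h1, Finset.sum_insert, Finset.sum_union, Finset.sum_image, Finset.sum_image, Finset.sum_add_distrib]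
  · intro a _ b _ h; simp only at h; omega
  · intro a _ b _ h; simp only at h; omega
  · rw [Finset.disjoint_left]
    intro n h2 h3
    rw [Finset.mem_image] at h2 h3
    obtain ⟨a, _, ha⟩ := h2
    obtain ⟨b, _, hb⟩ := h3
    omega
  · intro h2
    rw [Finset.mem_union, Finset.mem_image, Finset.mem_image] at h2
    rcases h2 with ⟨j, _, hj⟩ | ⟨j, _, hj⟩ <;> omega

theorem sum_pairs {M : Type*} [AddCommMonoid M] (g : ℕ → M) (n : ℕ) :
    ∑ j ∈ Finset.range (2 * n), g j = ∑ j ∈ Finset.range n, (g (2 * j) + g (2 * j + 1)) := by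
  induction n with
  | zero => rfl
  | succ n ih =>
    rw [Finset.sum_range_succ, ← ih, show 2 * (n + 1) = 2 * n + 1 + 1 from rfl, Finset.sum_range_succ,
      Finset.sum_range_succ, add_assoc]

/-! ### the real row -/

/-- the part of a hermitian array -/
noncomputable def hrho (A : ℤ → ℂ) (j : ℕ) : ℝ :=
  if j = 0 then (A 0).re
  else if j % 2 = 1 then (A ((j : ℤ) + 1)).re + (A (-((j : ℤ) + 1))).re
  else (A (j : ℤ)).im - (A (-(j : ℤ))).im

/-- the real row -/
noncomputable def rho (K L : ℕ) (c0 : ℝ) (S P R : ℤ → ℂ) (i : ℕ) : ℝ :=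
  if i = 0 then c0
  else if i < bp K then (if (i - 1) % 2 = 0 then (S (((i - 1 : ℕ) : ℤ) - K)).re else (S (((i - 2 : ℕ) : ℤ) - K)).im)
  else if i < br K L then hrho P (i - bp K) else hrho R (i - br K L)

theorem re_mul_conj (x y : ℝ) (A : ℂ) :
    (((x : ℂ) + Complex.I * (y : ℂ)) * (starRingEnd ℂ) A).re = A.re * x + A.im * y := by
  simp [Complex.mul_re, Complex.mul_im]
  ring

theorem re_mul_conj' (x y : ℝ) (A : ℂ) :
    (((x : ℂ) - Complex.I * (y : ℂ)) * (starRingEnd ℂ) A).re = A.re * x - A.im * y := by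
  simp [Complex.mul_re, Complex.mul_im]
  ring

/-- the sum over a hermitian head array -/
theorem h_sum {L N : ℕ} (hL : Even L) (hLN : L ≤ N) (base : ℕ) (A : ℤ → ℂ) (v : ℕ → ℝ) :
    (∑ n ∈ Finset.Icc (-(N : ℤ)) N, hV L base v n * (starRingEnd ℂ) (A n)).re =
      ∑ j ∈ Finset.range (L + 1), hrho A j * v (base + j) := by
  obtain ⟨l, hl⟩ := hL
  have hl2 : L = 2 * l := by omega
  subst hl2
  rw [Complex.re_sum, sum_h hLN, Finset.sum_range_succ', sum_pairs, add_comm]
  · congr 1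
    · refine Finset.sum_congr rfl fun j hj => ?_
      rw [Finset.mem_range] at hj
      have m1 : ¬ (¬ Even (2 * ((j : ℤ) + 1)) ∨ 2 * ((j : ℤ) + 1) ∉ Finset.Icc (-((2 * l : ℕ) : ℤ)) ((2 * l : ℕ) : ℤ)) := by
        push Not
        exact ⟨even_two_mul _, by rw [Finset.mem_Icc]; omega⟩
      have m2 : ¬ (¬ Even (-(2 * ((j : ℤ) + 1))) ∨ -(2 * ((j : ℤ) + 1)) ∉ Finset.Icc (-((2 * l : ℕ) : ℤ)) ((2 * l : ℕ) : ℤ)) := by
        push Not
        exact ⟨(even_two_mul _).neg, by rw [Finset.mem_Icc]; omega⟩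
      have e1 : hV (2 * l) base v (2 * ((j : ℤ) + 1)) =
          (v (base + (2 * j + 1)) : ℂ) + Complex.I * (v (base + (2 * j + 1 + 1)) : ℂ) := by
        unfold hV
        rw [if_neg m1, if_neg (by omega), if_pos (by omega)]
        have t : (2 * ((j : ℤ) + 1)).toNat = 2 * j + 1 + 1 := by omega
        rw [t]
        rfl
      have e2 : hV (2 * l) base v (-(2 * ((j : ℤ) + 1))) =
          (v (base + (2 * j + 1)) : ℂ) - Complex.I * (v (base + (2 * j + 1 + 1)) : ℂ) := by
        unfold hV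
        rw [if_neg m2, if_neg (by omega), if_neg (by omega)]
        have t : (- -(2 * ((j : ℤ) + 1))).toNat = 2 * j + 1 + 1 := by omega
        rw [t]
        rfl
      rw [e1, e2, re_mul_conj, re_mul_conj']
      have r1 : hrho A (2 * j + 1) = (A (2 * ((j : ℤ) + 1))).re + (A (-(2 * ((j : ℤ) + 1)))).re := by
        unfold hrho
        rw [if_neg (by omega), if_pos (by omega)]
        have t : (((2 * j + 1 : ℕ) : ℤ) + 1) = 2 * ((j : ℤ) + 1) := by push_cast; ring
        rw [t]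
      have r2 : hrho A (2 * j + 1 + 1) = (A (2 * ((j : ℤ) + 1))).im - (A (-(2 * ((j : ℤ) + 1)))).im := by
        unfold hrho
        rw [if_neg (by omega), if_neg (by omega)]
        have t : (((2 * j + 1 + 1 : ℕ) : ℤ)) = 2 * ((j : ℤ) + 1) := by push_cast; ring
        rw [t]
      rw [r1, r2]
      ring
    · have e0 : hV (2 * l) base v 0 = (v base : ℂ) := by
        unfold hV
        rw [if_neg (by push Not; exact ⟨Even.zero, by rw [Finset.mem_Icc]; omega⟩), if_pos rfl]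
      have := re_mul_conj (v base) 0 (A 0)
      rw [Complex.ofReal_zero, mul_zero, add_zero, mul_zero, add_zero] at this
      rw [e0, this]
      unfold hrho
      rw [if_pos rfl, add_zero]
  · intro n hn
    rw [hV_odd _ _ _ _ hn, zero_mul, Complex.zero_re]
  · intro n hn
    rw [hV_sup _ _ _ n hn, zero_mul, Complex.zero_re]

/-- the sum over the head of `s` -/
theorem s_sum {K N : ℕ} (hK : ¬ Even K) (hKN : K ≤ N) (A : ℤ → ℂ) (v : ℕ → ℝ) :
    (∑ n ∈ Finset.Icc (-(N : ℤ)) N, sV K v n * (starRingEnd ℂ) (A n)).re =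
      ∑ j ∈ Finset.range (2 * (K + 1)), (if j % 2 = 0 then (A ((j : ℤ) - K)).re else (A (((j - 1 : ℕ) : ℤ) - K)).im)
        * v (1 + j) := by
  obtain ⟨k, hk⟩ := Nat.not_even_iff_odd.1 hK
  subst hk
  rw [Complex.re_sum, sum_s hKN, sum_pairs]
  · refine Finset.sum_congr rfl fun j hj => ?_
    rw [Finset.mem_range] at hj
    have e1 : sV (2 * k + 1) v (2 * (j : ℤ) - ((2 * k + 1 : ℕ) : ℤ)) =
        (v (1 + 2 * j) : ℂ) + Complex.I * (v (1 + (2 * j + 1)) : ℂ) := by
      unfold sV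
      rw [if_neg]
      · have t : (2 * (j : ℤ) - ((2 * k + 1 : ℕ) : ℤ) + ((2 * k + 1 : ℕ) : ℤ)).toNat = 2 * j := by omega
        rw [t]
        have t2 : 2 + 2 * j = 1 + (2 * j + 1) := by omega
        rw [t2]
      · push Not
        refine ⟨?_, by rw [Finset.mem_Icc]; omega⟩
        rw [Int.not_even_iff_odd]
        exact ⟨(j : ℤ) - k - 1, by push_cast; ring⟩
    rw [e1, re_mul_conj, if_pos (by omega), if_neg (by omega)]
    have t3 : (((2 * j + 1 - 1 : ℕ) : ℕ) : ℤ) = 2 * (j : ℤ) := by omega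
    have t4 : ((2 * j : ℕ) : ℤ) = 2 * (j : ℤ) := by push_cast; ring
    rw [t3, t4]
  · intro n hn
    rw [sV_even _ _ _ hn, zero_mul, Complex.zero_re]
  · intro n hn
    rw [sV_sup _ _ n hn, zero_mul, Complex.zero_re]

/-- the functional of three arrays and a constant -/
noncomputable def row3 (N : ℕ) (c0 : ℝ) (S P R : ℤ → ℂ) (p r s : ℤ → ℂ) : ℝ :=
  c0 + (∑ n ∈ Finset.Icc (-(N : ℤ)) N, (s n * (starRingEnd ℂ) (S n) + p n * (starRingEnd ℂ) (P n) +
    r n * (starRingEnd ℂ) (R n))).re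

/-- **a complex row in real coordinates** -/
theorem row_eq {K L N : ℕ} (hK : ¬ Even K) (hL : Even L) (hKN : K ≤ N) (hLN : L ≤ N) (c0 : ℝ) (S P R : ℤ → ℂ)
    (v : ℕ → ℝ) (hv : v 0 = 1) :
    row3 N c0 S P R (pV K L v) (rV K L v) (sV K v) = ∑ i ∈ Finset.range (nt K L), rho K L c0 S P R i * v i := by
  have e : nt K L = 1 + 2 * (K + 1) + (L + 1) + (L + 1) := by unfold nt bp; rfl
  rw [e, Finset.sum_range_add, Finset.sum_range_add, Finset.sum_range_add, Finset.sum_range_one]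
  unfold row3
  rw [Finset.sum_add_distrib, Finset.sum_add_distrib, Complex.add_re, Complex.add_re, s_sum hK hKN]
  unfold pV rV
  rw [h_sum hL hLN, h_sum hL hLN, ← add_assoc, ← add_assoc]
  congr 1
  · congr 1
    · congr 1
      · unfold rho
        rw [if_pos rfl, hv, mul_one]
      · refine Finset.sum_congr rfl fun j hj => ?_
        rw [Finset.mem_range] at hj
        have r : rho K L c0 S P R (1 + j) =
            (if j % 2 = 0 then (S ((j : ℤ) - K)).re else (S (((j - 1 : ℕ) : ℤ) - K)).im) := by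
          have t1 : 1 + j - 1 = j := by omega
          have t2 : 1 + j - 2 = j - 1 := by omega
          unfold rho bp
          rw [t1, t2, if_neg (show ¬ (1 + j = 0) by omega), if_pos (show 1 + j < 1 + 2 * (K + 1) by omega)]
        rw [r]
    · refine Finset.sum_congr rfl fun j hj => ?_
      rw [Finset.mem_range] at hj
      unfold rho br bp
      rw [if_neg (by omega), if_neg (by omega), if_pos (by omega)]
      have t1 : 1 + 2 * (K + 1) + j - (1 + 2 * (K + 1)) = j := by omega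
      rw [t1]
  · refine Finset.sum_congr rfl fun j hj => ?_
    rw [Finset.mem_range] at hj
    unfold rho br bp
    rw [if_neg (by omega), if_neg (by omega), if_neg (by omega)]
    have t1 : 1 + 2 * (K + 1) + (L + 1) + j - (1 + 2 * (K + 1) + (L + 1)) = j := by omega
    rw [t1]

/-! ### the integer row -/

/-- the part of a hermitian array, integers -/
def ihr (A B : ℤ → ℤ) (j : ℕ) : ℤ :=
  if j = 0 then A 0
  else if j % 2 = 1 then A ((j : ℤ) + 1) + A (-((j : ℤ) + 1))
  else B (j : ℤ) - B (-(j : ℤ))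

/-- the integer row: `SR, SI` = real and imaginary parts of `S`, etc. -/
def iRow (K L : ℕ) (c : ℤ) (SR SI PR PI RR RI : ℤ → ℤ) (i : ℕ) : ℤ :=
  if i = 0 then c
  else if i < bp K then (if (i - 1) % 2 = 0 then SR (((i - 1 : ℕ) : ℤ) - K) else SI (((i - 2 : ℕ) : ℤ) - K))
  else if i < br K L then ihr PR PI (i - bp K) else ihr RR RI (i - br K L)

/-- complex number of two integers -/
noncomputable def ci (a b : ℤ) : ℂ := (a : ℂ) + Complex.I * (b : ℂ)

theorem ci_re (a b : ℤ) : (ci a b).re = a := by unfold ci; simp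
theorem ci_im (a b : ℤ) : (ci a b).im = b := by unfold ci; simp

theorem ci_err {q e : ℝ} {z : ℂ} {a b : ℤ} (h : ‖(q : ℂ) * z - ci a b‖ ≤ e) :
    |q * z.re - a| ≤ e ∧ |q * z.im - b| ≤ e := by
  have h1 := (Complex.abs_re_le_norm _).trans h
  have h2 := (Complex.abs_im_le_norm _).trans h
  rw [Complex.sub_re, ci_re, Complex.re_ofReal_mul] at h1
  rw [Complex.sub_im, ci_im, Complex.im_ofReal_mul] at h2
  exact ⟨h1, h2⟩

theorem hrho_err {q e : ℝ} {A : ℤ → ℂ} {AR AI : ℤ → ℤ} {L : ℕ} (hL : Even L) (he : 0 ≤ e)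
    (h : ∀ n ∈ Finset.Icc (-(L : ℤ)) L, ‖(q : ℂ) * A n - ci (AR n) (AI n)‖ ≤ e) (j : ℕ) (hj : j ≤ L) :
    |q * hrho A j - ihr AR AI j| ≤ 2 * e := by
  obtain ⟨l, hl⟩ := hL
  unfold hrho ihr
  by_cases h0 : j = 0
  · rw [if_pos h0, if_pos h0]
    have := (ci_err (h 0 (by rw [Finset.mem_Icc]; omega))).1
    linarith
  rw [if_neg h0, if_neg h0]
  by_cases h1 : j % 2 = 1
  · rw [if_pos h1, if_pos h1]
    have a1 := (ci_err (h ((j : ℤ) + 1) (by rw [Finset.mem_Icc]; omega))).1
    have a2 := (ci_err (h (-((j : ℤ) + 1)) (by rw [Finset.mem_Icc]; omega))).1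
    have e1 : q * ((A ((j : ℤ) + 1)).re + (A (-((j : ℤ) + 1))).re) - ((AR ((j : ℤ) + 1) + AR (-((j : ℤ) + 1)) : ℤ) : ℝ) =
        (q * (A ((j : ℤ) + 1)).re - AR ((j : ℤ) + 1)) + (q * (A (-((j : ℤ) + 1))).re - AR (-((j : ℤ) + 1))) := by
      push_cast; ring
    rw [e1]
    exact (abs_add_le _ _).trans (by linarith)
  · rw [if_neg h1, if_neg h1]
    have a1 := (ci_err (h (j : ℤ) (by rw [Finset.mem_Icc]; omega))).2
    have a2 := (ci_err (h (-(j : ℤ)) (by rw [Finset.mem_Icc]; omega))).2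
    have e1 : q * ((A (j : ℤ)).im - (A (-(j : ℤ))).im) - ((AI (j : ℤ) - AI (-(j : ℤ)) : ℤ) : ℝ) =
        (q * (A (j : ℤ)).im - AI (j : ℤ)) - (q * (A (-(j : ℤ))).im - AI (-(j : ℤ))) := by
      push_cast; ring
    rw [e1]
    exact (abs_sub _ _).trans (by linarith)

/-- **the certificate of a complex row** -/
theorem LR_row {K L N : ℕ} (hK : ¬ Even K) (hL : Even L) (hKN : K ≤ N) (hLN : L ≤ N) {q e c0 : ℝ} {S P R : ℤ → ℂ}
    {c : ℤ} {SR SI PR PI RR RI : ℤ → ℤ} (he : 0 ≤ e) (hc : |q * c0 - c| ≤ 2 * e)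
    (hs : ∀ n ∈ Finset.Icc (-(K : ℤ)) K, ‖(q : ℂ) * S n - ci (SR n) (SI n)‖ ≤ 2 * e)
    (hp : ∀ n ∈ Finset.Icc (-(L : ℤ)) L, ‖(q : ℂ) * P n - ci (PR n) (PI n)‖ ≤ e)
    (hr : ∀ n ∈ Finset.Icc (-(L : ℤ)) L, ‖(q : ℂ) * R n - ci (RR n) (RI n)‖ ≤ e) :
    LR (nt K L) q (fun v => row3 N c0 S P R (pV K L v) (rV K L v) (sV K v)) (iRow K L c SR SI PR PI RR RI) (2 * e) := by
  refine ⟨rho K L c0 S P R, fun v hv => row_eq hK hL hKN hLN c0 S P R v hv, fun i hi => ?_⟩
  obtain ⟨k, hk⟩ := Nat.not_even_iff_odd.1 hK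
  unfold rho iRow
  by_cases h0 : i = 0
  · rw [if_pos h0, if_pos h0]; exact hc
  rw [if_neg h0, if_neg h0]
  by_cases h1 : i < bp K
  · rw [if_pos h1, if_pos h1]
    unfold bp at h1
    by_cases h2 : (i - 1) % 2 = 0
    · rw [if_pos h2, if_pos h2]
      exact (ci_err (hs _ (by rw [Finset.mem_Icc]; omega))).1
    · rw [if_neg h2, if_neg h2]
      exact (ci_err (hs _ (by rw [Finset.mem_Icc]; omega))).2
  rw [if_neg h1, if_neg h1]
  by_cases h2 : i < br K L
  · rw [if_pos h2, if_pos h2]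
    refine hrho_err hL he hp _ ?_
    unfold br at h2
    omega
  · rw [if_neg h2, if_neg h2]
    refine hrho_err hL he hr _ ?_
    unfold nt at hi
    unfold br at h2 ⊢
    omega

end Pool.Agent.Helper64.SH
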