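import Pool.Agent.Helper64.SH.Mu

/-!
# Project RC, SHARP, cell engine: far coefficients and small closure lemmas

`far_sq`: all coefficients of a certified function beyond the window of its table have the quadratic sum `≤ (er/2^s)²`.
`CA.half`, `CA.ratio`, `CA.sy`: division by two, rational multiple, symmetrisation `(A n + conj (A (-n))) / 2`.
-/

open Finset

namespace Pool.Agent.Helper64.SH

open Helper95.SH Helper95.RC
open Helper49.RC (om)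
open Helper87.RC (BM fc_add fc_cmul)
open Helper56.RC (fc)
open Helper54.RC.Fast (FP PF AP)

/-- the coefficients beyond the table -/
theorem far_sq {b s : ℕ} {p : PF} {f : ℝ → ℂ} {C : ℝ} (hf : BM f C) (h : AP b s p f) (F : Finset ℤ)
    (hF : ∀ n ∈ F, (p.z.N : ℤ) < |n|) : ∑ n ∈ F, ‖fc f n‖ ^ 2 ≤ ((p.er : ℝ) / 2 ^ s) ^ 2 := by
  refine le_trans (le_of_eq (Finset.sum_congr rfl fun n hn => ?_)) (Helper30.SH.coef_sq hf h F)
  have h1 : Helper30.SH.cf b p.z n = 0 := by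
    unfold Helper30.SH.cf
    rw [if_neg]
    intro h2
    rw [Finset.mem_Icc] at h2
    have := hF n hn
    rw [lt_abs] at this
    omega
  rw [h1, zero_div, sub_zero]

/-- half -/
theorem CA.half {q : ℝ} {x : ℂ} {a b : ℤ} {e : ℝ} (h : CA q x a b e) : CA (2 * q) (x / 2) a b e := by
  unfold CA at *
  have e1 : ((2 * q : ℝ) : ℂ) * (x / 2) = (q : ℂ) * x := by push_cast; ring
  rw [e1]
  exact h

/-- rational multiple `m / D` -/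
theorem CA.ratio {q : ℝ} {x : ℂ} {a b : ℤ} {e : ℝ} (h : CA q x a b e) (m : ℤ) {D : ℝ} (hD : D ≠ 0) :
    CA (D * q) (((m : ℝ) / D : ℝ) * x) (m * a) (m * b) (|(m : ℝ)| * e) := by
  have k := h.smul m
  unfold CA at *
  have e1 : ((D * q : ℝ) : ℂ) * ((((m : ℝ) / D : ℝ) : ℂ) * x) = (q : ℂ) * ((m : ℂ) * x) := by
    have : (D : ℂ) ≠ 0 := Complex.ofReal_ne_zero.2 hD
    push_cast
    field_simp
  rw [e1]
  exact k

/-- symmetrisation -/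
theorem CA.sy {q : ℝ} {x y : ℂ} {a b c d : ℤ} {e : ℝ} (h : CA q x a b e) (k : CA q y c d e) :
    CA (2 * q) ((x + (starRingEnd ℂ) y) / 2) (a + c) (b - d) (2 * e) := by
  have := (h.add k.conj).half
  rw [← sub_eq_add_neg] at this
  exact this.mono (by linarith)

/-- all coefficients of the sum of two certified functions with rational weights: `(m1/(2D)) f1 + (m2/(2D)) f2` -/
theorem CA.lin2 {q : ℝ} {x y : ℂ} {a b c d : ℤ} {e : ℝ} (h : CA q x a b e) (k : CA q y c d e) (m1 m2 : ℤ) {D : ℝ}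
    (hD : D ≠ 0) :
    CA (2 * (D * q)) (((((m1 : ℝ) / D : ℝ) : ℂ) / 2) * x + ((((m2 : ℝ) / D : ℝ) : ℂ) / 2) * y)
      (m1 * a + m2 * c) (m1 * b + m2 * d) ((|(m1 : ℝ)| + |(m2 : ℝ)|) * e) := by
  have := ((h.ratio m1 hD).add (k.ratio m2 hD)).half
  have e1 : ((((m1 : ℝ) / D : ℝ) : ℂ) * x + (((m2 : ℝ) / D : ℝ) : ℂ) * y) / 2 =
      ((((m1 : ℝ) / D : ℝ) : ℂ) / 2) * x + ((((m2 : ℝ) / D : ℝ) : ℂ) / 2) * y := by ring
  rw [e1] at this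
  exact this.mono (by rw [add_mul])

/-- the squares of the weighted sums, by Minkowski -/
theorem far_comb {F : Finset ℤ} {x y : ℤ → ℂ} {a b : ℝ} (ha : 0 ≤ a) (hb : 0 ≤ b) (u w : ℂ)
    (h : ∑ n ∈ F, ‖x n‖ ^ 2 ≤ a ^ 2) (k : ∑ n ∈ F, ‖y n‖ ^ 2 ≤ b ^ 2) :
    ∑ n ∈ F, ‖u * x n + w * y n‖ ^ 2 ≤ (‖u‖ * a + ‖w‖ * b) ^ 2 := by
  have h1 : ∀ n, ‖u * x n + w * y n‖ ^ 2 ≤
      ‖u‖ ^ 2 * ‖x n‖ ^ 2 + 2 * (‖u‖ * ‖w‖ * (‖x n‖ * ‖y n‖)) + ‖w‖ ^ 2 * ‖y n‖ ^ 2 := by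
    intro n
    have h2 := pow_le_pow_left₀ (norm_nonneg _) (norm_add_le (u * x n) (w * y n)) 2
    rw [norm_mul, norm_mul] at h2
    linarith [h2]
  have h3 : ∑ n ∈ F, ‖x n‖ * ‖y n‖ ≤ a * b := by
    have h4 := Finset.sum_mul_sq_le_sq_mul_sq F (fun n => ‖x n‖) (fun n => ‖y n‖)
    have h5 : (∑ n ∈ F, ‖x n‖ ^ 2) * (∑ n ∈ F, ‖y n‖ ^ 2) ≤ a ^ 2 * b ^ 2 :=
      mul_le_mul h k (Finset.sum_nonneg fun n _ => by positivity) (by positivity)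
    have h6 : (∑ n ∈ F, ‖x n‖ * ‖y n‖) ^ 2 ≤ (a * b) ^ 2 := (h4.trans h5).trans (le_of_eq (by ring))
    exact abs_le_of_sq_le_sq' h6 (by positivity) |>.2
  calc ∑ n ∈ F, ‖u * x n + w * y n‖ ^ 2
      ≤ ∑ n ∈ F, (‖u‖ ^ 2 * ‖x n‖ ^ 2 + 2 * (‖u‖ * ‖w‖ * (‖x n‖ * ‖y n‖)) + ‖w‖ ^ 2 * ‖y n‖ ^ 2) :=
        Finset.sum_le_sum fun n _ => h1 n
    _ = ‖u‖ ^ 2 * ∑ n ∈ F, ‖x n‖ ^ 2 + 2 * (‖u‖ * ‖w‖ * ∑ n ∈ F, ‖x n‖ * ‖y n‖) + ‖w‖ ^ 2 * ∑ n ∈ F, ‖y n‖ ^ 2 := by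
        simp only [Finset.sum_add_distrib, Finset.mul_sum]
    _ ≤ ‖u‖ ^ 2 * a ^ 2 + 2 * (‖u‖ * ‖w‖ * (a * b)) + ‖w‖ ^ 2 * b ^ 2 := by
        refine add_le_add (add_le_add (mul_le_mul_of_nonneg_left h (by positivity)) ?_)
          (mul_le_mul_of_nonneg_left k (by positivity))
        exact mul_le_mul_of_nonneg_left (mul_le_mul_of_nonneg_left h3 (by positivity)) (by norm_num)
    _ = _ := by ring

end Pool.Agent.Helper64.SH
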