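import Pool.Agent.Helper49.RC.CellR
import Pool.Agent.Helper64.SH.Mu2

/-!
# Project RC, SHARP, cell engine: the unit directions `u1`, `u2` of a record

`okU b r s Q h e l v1 v2 = true` (kernel check; `v1`, `v2` = tables of `2 ^ s u_j`, `Q` = scale, `h ≈ 50000 Q √3`) gives
`AP b s ⟨v1, e⟩ R.par.u1` and `AP b s ⟨v2, e⟩ R.par.u2` for the record `R` with `R.z = l`.
-/

open Finset

namespace Pool.Agent.Helper64.SH

open Helper49.LT hiding sg
open Helper49.RC (om)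
open Helper49.Cell
open Helper54.RC.Fast
open Helper87.RC (BM)

/-- `100000 Q (om + z0)` -/
def dU1 (b Q h : ℕ) (l : List (ℤ × ℤ)) : FP :=
  addF b (moF b 12 12 (Nat.mul 50000 Q) 0 h 0) (smF b Q (fpZ b l))
/-- `100000 Q (om² - z0)` -/
def dU2 (b Q h : ℕ) (l : List (ℤ × ℤ)) : FP :=
  subF b (moF b 12 12 0 (Nat.mul 50000 Q) h 0) (smF b Q (fpZ b l))

def okUq (q h : ℕ) : Bool :=
  bif Nat.ble (Nat.mul h h) (Nat.mul 3 (Nat.mul q q)) then
    Nat.ble (Nat.mul 3 (Nat.mul q q)) (Nat.mul (Nat.succ h) (Nat.succ h)) else false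

def okUa (b r Q h : ℕ) (l : List (ℤ × ℤ)) : Bool :=
  bif Nat.ble r (Nat.succ b) then
    bif okF b l then
      bif oks b r Q (fpZ b l) then
        bif okUq (Nat.mul 50000 Q) h then
          bif Nat.ble (Nat.succ (Nat.mul 50000 Q)) (Nat.pow 2 b) then
            bif Nat.ble (Nat.succ h) (Nat.pow 2 b) then
              bif oka b r (moF b 12 12 (Nat.mul 50000 Q) 0 h 0) (smF b Q (fpZ b l)) then
                oka b r (moF b 12 12 0 (Nat.mul 50000 Q) h 0) (smF b Q (fpZ b l))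
              else false
            else false
          else false
        else false
      else false
    else false
  else false

def okU1 (b r s G e : ℕ) (v d : FP) : Bool :=
  bif okW b r s v d 1 G then Nat.ble (erW b r s v d 1 G) e else false

/-- **THE CHECK** -/
def okU (b r s Q h e : ℕ) (l : List (ℤ × ℤ)) (v1 v2 : FP) : Bool :=
  bif okUa b r Q h l then
    bif okU1 b r s (Nat.mul 50000 Q) e v1 (dU1 b Q h l) then
      okU1 b r s (Nat.mul 50000 Q) e v2 (dU2 b Q h l)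
    else false
  else false

theorem okUq_sound {q h : ℕ} (k : okUq q h = true) : |(q : ℝ) * Real.sqrt 3 - h| ≤ 1 := by
  unfold okUq at k
  rw [bif_iff] at k
  obtain ⟨k1, k2⟩ := k
  have k1 : h * h ≤ 3 * (q * q) := Nat.le_of_ble_eq_true k1
  have k2 : 3 * (q * q) ≤ (h + 1) * (h + 1) := Nat.le_of_ble_eq_true k2
  have := sqrt3_T (q' := q) (T := h) (by nlinarith) (by nlinarith)
  rwa [Int.cast_natCast] at this

theorem dU_sound {b r Q h : ℕ} {l : List (ℤ × ℤ)} (k : okUa b r Q h l = true) :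
    (∀ t, ‖((100000 * Q : ℝ) : ℂ) * (om + zA (-11) l t / 100000) - V b (dU1 b Q h l) t‖ ≤ 1) ∧
    (∀ t, ‖((100000 * Q : ℝ) : ℂ) * (om ^ 2 - zA (-11) l t / 100000) - V b (dU2 b Q h l) t‖ ≤ 1) := by
  unfold okUa at k
  simp only [bif_iff] at k
  obtain ⟨k1, k2, k3, k4, k5, k6, k7, k8⟩ := k
  have hr : r ≤ b + 1 := Nat.le_of_ble_eq_true k1
  have hq := okUq_sound k4
  have k5 : 50000 * Q < 2 ^ b := Nat.le_of_ble_eq_true k5
  have k6 : h < 2 ^ b := Nat.le_of_ble_eq_true k6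
  have h0 : 0 < 2 ^ b := by positivity
  obtain ⟨z1, z2⟩ := fpZ_sound b l k2
  obtain ⟨s1, s2⟩ := smF_sound b r hr Q _ z1 k3
  obtain ⟨m1, m2⟩ := moF_sound b 12 12 (50000 * Q) 0 h 0 (by norm_num) k5 h0 k6 h0
  obtain ⟨n1, n2⟩ := moF_sound b 12 12 0 (50000 * Q) h 0 (by norm_num) h0 k5 k6 h0
  obtain ⟨a1, a2⟩ := addF_sound b r hr _ _ m1 s1 k7
  obtain ⟨b1, b2⟩ := subF_sound b r hr _ _ n1 s1 k8
  have e0 : ∀ t : ℝ, ee (((((12 : ℕ) : ℝ)) - ((12 : ℕ) : ℝ)) * t) = 1 := fun t => by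
    rw [sub_self, zero_mul]
    unfold ee
    simp
  have hq2 : |((50000 * Q : ℕ) : ℝ) * Real.sqrt 3 - h| ≤ 1 := hq
  refine ⟨fun t => ?_, fun t => ?_⟩
  · have e1 : V b (dU1 b Q h l) t = ((50000 * Q : ℕ) : ℂ) + Complex.I * (h : ℂ) + Q * zA (-11) l t := by
      show V b (addF b (moF b 12 12 (50000 * Q) 0 h 0) (smF b Q (fpZ b l))) t = _
      rw [a2, s2, z2, m2, e0]
      push_cast
      ring
    have e2 : ((100000 * Q : ℝ) : ℂ) * (om + zA (-11) l t / 100000) - V b (dU1 b Q h l) t =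
        Complex.I * ((((50000 * Q : ℕ) : ℝ) * Real.sqrt 3 - h : ℝ) : ℂ) := by
      rw [e1, om_eq]
      push_cast
      ring
    rw [e2, norm_mul, Complex.norm_I, one_mul, Complex.norm_real, Real.norm_eq_abs]
    exact hq2
  · have e1 : V b (dU2 b Q h l) t = -((50000 * Q : ℕ) : ℂ) + Complex.I * (h : ℂ) - Q * zA (-11) l t := by
      show V b (subF b (moF b 12 12 0 (50000 * Q) h 0) (smF b Q (fpZ b l))) t = _
      rw [b2, s2, z2, n2, e0]
      push_cast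
      ring
    have e2 : ((100000 * Q : ℝ) : ℂ) * (om ^ 2 - zA (-11) l t / 100000) - V b (dU2 b Q h l) t =
        Complex.I * ((((50000 * Q : ℕ) : ℝ) * Real.sqrt 3 - h : ℝ) : ℂ) := by
      rw [e1, om2_eq]
      push_cast
      ring
    rw [e2, norm_mul, Complex.norm_I, one_mul, Complex.norm_real, Real.norm_eq_abs]
    exact hq2

theorem ee_arg_div {D : ℂ} (h : D ≠ 0) : ee D.arg = D / (‖D‖ : ℂ) := by
  have h1 := Complex.norm_mul_exp_arg_mul_I D
  have h2 : (‖D‖ : ℂ) ≠ 0 := by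
    rw [Ne, Complex.ofReal_eq_zero, norm_eq_zero]
    exact h
  unfold ee
  rw [eq_div_iff h2, mul_comm]
  exact h1

theorem AP_mono {b s : ℕ} {v : FP} {e e' : ℕ} {f : ℝ → ℂ} (h : AP b s ⟨v, e⟩ f) (k : e ≤ e') : AP b s ⟨v, e'⟩ f :=
  ⟨h.1, fun t => (h.2 t).trans (by exact_mod_cast k)⟩

theorem okU1_sound {b r s Q e : ℕ} {v d : FP} (hQ : 0 < Q) (k : okU1 b r s (50000 * Q) e v d = true) {D : ℝ → ℂ}
    (hD : Continuous D) (h1 : ∀ t, ‖((100000 * Q : ℝ) : ℂ) * D t - V b d t‖ ≤ 1) (h2 : ∀ t, 1 / 2 ≤ ‖D t‖) :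
    AP b s ⟨v, e⟩ (fun t => D t / (‖D t‖ : ℂ)) := by
  unfold okU1 at k
  rw [bif_iff] at k
  obtain ⟨k1, k2⟩ := k
  have k2 : erW b r s v d 1 (50000 * Q) ≤ e := Nat.le_of_ble_eq_true k2
  have hQ' : (0 : ℝ) < Q := by exact_mod_cast hQ
  have := unF_sound b r s v d 1 (50000 * Q) k1 D hD (100000 * Q) (by positivity) (fun t => by
    have := h1 t
    push_cast at this ⊢
    exact this) (fun t => by
      push_cast
      nlinarith [h2 t])
  exact AP_mono this k2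

/-- **the directions of a record** -/
theorem UR {R : Rec} {C : Crt} (h : R.ok C = true) {b r s Q hh e : ℕ} (hQ : 0 < Q) {v1 v2 : FP}
    (k : okU b r s Q hh e R.z v1 v2 = true) : AP b s ⟨v1, e⟩ R.par.u1 ∧ AP b s ⟨v2, e⟩ R.par.u2 := by
  have ok := Rec.ok_sound h
  unfold okU at k
  rw [bif_iff, bif_iff] at k
  obtain ⟨k1, k2, k3⟩ := k
  obtain ⟨d1, d2⟩ := dU_sound k1
  have hz : ∀ t, ‖zA (-11) R.z t / 100000‖ ≤ 1 / 2 := ok.bz
  have hc : Continuous fun t => zA (-11) R.z t / 100000 := ok.cz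
  have n1 : ∀ t, 1 / 2 ≤ ‖om + zA (-11) R.z t / 100000‖ := fun t => by
    have h1 := norm_sub_norm_le om (-(zA (-11) R.z t / 100000))
    rw [norm_neg, Helper30.SH.norm_om, sub_neg_eq_add] at h1
    linarith [hz t]
  have n2 : ∀ t, 1 / 2 ≤ ‖om ^ 2 - zA (-11) R.z t / 100000‖ := fun t => by
    have h1 := norm_sub_norm_le (om ^ 2) (zA (-11) R.z t / 100000)
    rw [norm_pow, Helper30.SH.norm_om, one_pow] at h1
    linarith [hz t]
  have ne : ∀ {x : ℂ}, 1 / 2 ≤ ‖x‖ → x ≠ 0 := fun {x} hx h0 => by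
    rw [h0, norm_zero] at hx
    norm_num at hx
  have e1 : R.par.u1 = fun t => (om + zA (-11) R.z t / 100000) / (‖om + zA (-11) R.z t / 100000‖ : ℂ) :=
    funext fun t => ee_arg_div (ne (n1 t))
  have e2 : R.par.u2 = fun t => (om ^ 2 - zA (-11) R.z t / 100000) / (‖om ^ 2 - zA (-11) R.z t / 100000‖ : ℂ) :=
    funext fun t => ee_arg_div (ne (n2 t))
  rw [e1, e2]
  exact ⟨okU1_sound hQ k2 (continuous_const.add hc) d1 n1, okU1_sound hQ k3 (continuous_const.sub hc) d2 n2⟩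

end Pool.Agent.Helper64.SH
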