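import Pool.Agent.Helper20.SH.FRA
import Pool.Agent.Helper30.SH.ZRow4
import Pool.Agent.Helper64.SH.UR
import Pool.Agent.Helper87.SH.UP
import Pool.Agent.Helper49.RC.CellF

/-!
# Project RC, SHARP, cell engine: far coefficients of `u_j`, `d_j`, `f`, `w f`

In the form `Tb` of helper20: `Tb_AP` (a certified function), `Tb_u` (the directions of a record), `Tb_d` (the fields of
the second multiplier vanish beyond their degree), `Fw_far`, `Fn_far` (the weights vanish beyond 26, 24).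
-/

namespace Pool.Agent.Helper64.SH

open Pool.Agent.Helper20.SH (Tb)
open Helper54.RC.Fast
open Helper87.RC (BM)
open Helper56.RC (fc)
open Helper49.Cell (Rec Crt)

theorem Tb_AP {b s r M : ℕ} (hr : r ≤ b + 1) {p : PF} {f : ℝ → ℂ} {C : ℝ} (hf : BM f C) (h : AP b s p f)
    (hM : M ≤ p.z.N) : Tb (M + 1) (fc f) ((((p.er + tlF b r M p.z : ℕ) : ℝ) / 2 ^ s) ^ 2) := fun F hF => by
  refine Helper30.SH.far_sq hr hf h hM F fun n hn h2 => ?_
  have h1 := hF n hn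
  rw [Finset.mem_Icc] at h2
  omega

/-- the bound as a natural number at the scale `2 ^ (2 s)` -/
def tU (b r M e : ℕ) (v : FP) : ℕ := Nat.mul (Nat.add e (tlF b r M v)) (Nat.add e (tlF b r M v))

theorem Tb_AP' {b s r M e : ℕ} (hr : r ≤ b + 1) {v : FP} {f : ℝ → ℂ} {C : ℝ} (hf : BM f C) (h : AP b s ⟨v, e⟩ f)
    (hM : M ≤ v.N) : Tb (M + 1) (fc f) ((tU b r M e v : ℝ) / 2 ^ (2 * s)) := by
  have h1 := Tb_AP hr hf h hM
  have e1 : (((((⟨v, e⟩ : PF).er + tlF b r M (⟨v, e⟩ : PF).z : ℕ) : ℝ) / 2 ^ s) ^ 2) =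
      ((tU b r M e v : ℕ) : ℝ) / 2 ^ (2 * s) := by
    have e2 : tU b r M e v = (e + tlF b r M v) ^ 2 := by
      show (e + tlF b r M v) * (e + tlF b r M v) = _
      ring
    rw [e2, div_pow, ← pow_mul, mul_comm s 2]
    push_cast
    rfl
  rw [e1] at h1
  exact h1

/-- **the directions of a record** -/
theorem Tb_u {R : Rec} {C : Crt} (h : R.ok C = true) {b r s Q hh e : ℕ} (hr : r ≤ b + 1) (hQ : 0 < Q) {v1 v2 : FP}
    (k : okU b r s Q hh e R.z v1 v2 = true) {M : ℕ} (h1 : M ≤ v1.N) (h2 : M ≤ v2.N) {T : ℕ} (t1 : tU b r M e v1 ≤ T)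
    (t2 : tU b r M e v2 ≤ T) :
    Tb (M + 1) (fc R.par.u1) ((T : ℝ) / 2 ^ (2 * s)) ∧ Tb (M + 1) (fc R.par.u2) ((T : ℝ) / 2 ^ (2 * s)) := by
  obtain ⟨a1, a2⟩ := UR h hQ k
  have reg := (Rec.ok_sound h).reg
  have hT : ∀ n : ℕ, n ≤ T → ((n : ℝ) / 2 ^ (2 * s)) ≤ (T : ℝ) / 2 ^ (2 * s) := fun n hn => by
    apply div_le_div_of_nonneg_right _ (by positivity)
    exact_mod_cast hn
  exact ⟨(Tb_AP' hr (Helper49.Sharp.u1_bm reg) a1 h1).mono le_rfl (hT _ t1),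
    (Tb_AP' hr (Helper49.Sharp.u2_bm reg) a2 h2).mono le_rfl (hT _ t2)⟩

theorem Tb_zero {f : ℤ → ℂ} {M : ℕ} (h : ∀ n : ℤ, M ≤ n.natAbs → f n = 0) : Tb M f 0 := fun F hF => by
  refine le_of_eq (Finset.sum_eq_zero fun n hn => ?_)
  rw [h n (hF n hn), norm_zero]
  norm_num

/-- **the fields of the second multiplier** -/
theorem Tb_d {b r s : ℕ} {l : List (ℤ × ℤ)} {q : FP} (h : Helper87.SH.okP b r s l q = true) {M : ℕ}
    (hM : Helper87.SH.Mof l < M) : Tb M (fc (Helper87.SH.dP s l)) 0 :=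
  Tb_zero fun n hn => Helper87.SH.fc_dP_far h (by
    have h1 : (n.natAbs : ℤ) = |n| := Int.natCast_natAbs n
    omega)

/-- the coefficients of `w f` -/
theorem fw_far {R : Rec} {b r : ℕ} (h : Helper49.Cell.Rec.okT R b r = true) {n : ℤ} (hn : 26 < |n|) :
    fc (fun t => ((R.par.w t * R.cb.f t : ℝ) : ℂ)) n = 0 := by
  rw [Helper49.Cell.Rec.fcF_wf h]
  have e : Helper30.SH.cf b (Helper49.Cell.Rec.wfF R b) n = 0 := by
    apply Helper30.SH.cf_sup
    have hN : (Helper49.Cell.Rec.wfF R b).N = 26 := rfl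
    rw [hN, Finset.mem_Icc]
    intro h2
    have := abs_le.2 ⟨h2.1, h2.2⟩
    push_cast at this
    omega
  rw [e, zero_div]

theorem fn_far {R : Rec} {b r : ℕ} (h : Helper49.Cell.Rec.okT R b r = true) {n : ℤ} (hn : 24 < |n|) :
    fc (fun t => (R.cb.f t : ℂ)) n = 0 := by
  rw [Helper49.Cell.Rec.fcF_f h]
  have e : Helper30.SH.cf b (Helper49.Cell.Rec.fF R b) n = 0 := by
    apply Helper30.SH.cf_sup
    have hN : (Helper49.Cell.Rec.fF R b).N = 24 := rfl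
    rw [hN, Finset.mem_Icc]
    intro h2
    have := abs_le.2 ⟨h2.1, h2.2⟩
    push_cast at this
    omega
  rw [e, zero_div]

end Pool.Agent.Helper64.SH
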