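import Pool.Agent.Helper85.NS.Col

/-!
# Project RC, SHARP, cell engine: fast form of the columns of `C1`, `C2`

`colF f K L D e1 e2 i = colL f K L D e1 e2 i` (helper85's list), but the exact numbers are closed expressions depending
only on the residue of the frequency modulo 6, so that the kernel computes each of them once.
-/

namespace Pool.Agent.Helper64.SH

open Helper85.NS
open Pool.Agent.Helper40.NR (Z4 sc4 mul4)

/-- residue modulo 6 -/
def r6 (m : ℤ) : ℕ := match m with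
  | Int.ofNat k => Nat.mod k 6
  | Int.negSucc k => Nat.sub 5 (Nat.mod k 6)

/-- choice by the residue -/
def sel6 (c : ℕ → Z4) (r : ℕ) : Z4 := match r with
  | 0 => c 0
  | 1 => c 1
  | 2 => c 2
  | 3 => c 3
  | 4 => c 4
  | _ => c 5

def kcA (f : Bool) (τ : Ty) (D : ℤ) (g : Z4) (r : ℕ) : Z4 := sc4 D (mul4 g (kap f τ (Int.ofNat r)))
def kcB (f : Bool) (τ : Ty) (e1 e2 : ℤ) (g : Z4) (r : ℕ) : Z4 := mul4 (mul4 g (kap f τ (Int.ofNat r))) (e1, 0, e2, 0)

/-- the column of a list of fields; `ne2 = - e2` -/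
def colG (f : Bool) (D e1 e2 ne2 : ℤ) : List (Ty × ℤ × Z4) → List (ℤ × Z4)
  | [] => []
  | (τ, l, g) :: r => (Int.add l 1, sel6 (kcA f τ D g) (r6 (Int.add l 1))) ::
      (Int.add l 3, sel6 (kcB f τ e1 e2 g) (r6 (Int.add l 3))) ::
      (Int.sub l 1, sel6 (kcB f τ e1 ne2 g) (r6 (Int.sub l 1))) :: colG f D e1 e2 ne2 r

/-- **the fast column of the coordinate `i`** -/
def colF (f : Bool) (K L : ℕ) (D e1 e2 : ℤ) (i : ℕ) : List (ℤ × Z4) := colG f D e1 e2 (-e2) (fld K L i)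

theorem r6_eq (m : ℤ) : Int.ofNat (r6 m) = m % 6 := by
  match m with
  | Int.ofNat k =>
    show ((k % 6 : ℕ) : ℤ) = (k : ℤ) % 6
    omega
  | Int.negSucc k =>
    show ((5 - k % 6 : ℕ) : ℤ) = Int.negSucc k % 6
    rw [Int.negSucc_eq]
    omega

theorem r6_lt (m : ℤ) : r6 m < 6 := by
  have h := r6_eq m
  have h2 : (r6 m : ℤ) = m % 6 := h
  omega

theorem sel6_eq (c : ℕ → Z4) {r : ℕ} (h : r < 6) : sel6 c r = c r := by
  interval_cases r <;> rfl

theorem z2_congr {i j : ℤ} (h : i % 6 = j % 6) : z2 i = z2 j := by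
  unfold z2
  rw [h]

theorem kap_res (f : Bool) (τ : Ty) (m : ℤ) : kap f τ (m % 6) = kap f τ m := by
  have e1 : z2 (1 - m % 6) = z2 (1 - m) := z2_congr (by omega)
  have e2 : z2 (-(m % 6)) = z2 (-m) := z2_congr (by omega)
  have e3 : z2 (-(m % 6) - 1) = z2 (-m - 1) := z2_congr (by omega)
  have e4 : z2 (2 - 2 * (m % 6)) = z2 (2 - 2 * m) := z2_congr (by omega)
  have e5 : z2 (-2 * (m % 6)) = z2 (-2 * m) := z2_congr (by omega)
  have e6 : z2 (-2 * (m % 6) - 2) = z2 (-2 * m - 2) := z2_congr (by omega)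
  cases f <;> cases τ <;> simp only [kap, e1, e2, e3, e4, e5, e6]

theorem sel_kap (c : Z4 → Z4) (f : Bool) (τ : Ty) (m : ℤ) :
    sel6 (fun r => c (kap f τ (Int.ofNat r))) (r6 m) = c (kap f τ m) := by
  rw [sel6_eq _ (r6_lt m), r6_eq, kap_res]

theorem colG_eq (f : Bool) (D e1 e2 : ℤ) (l : List (Ty × ℤ × Z4)) :
    colG f D e1 e2 (-e2) l = l.flatMap fun x => termsK (kap f) D e1 e2 x.1 x.2.1 x.2.2 := by
  induction l with
  | nil => rfl
  | cons x l ih =>
    obtain ⟨τ, n, g⟩ := x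
    rw [List.flatMap_cons, ← ih]
    have h1 : sel6 (kcA f τ D g) (r6 (Int.add n 1)) = sc4 D (mul4 g (kap f τ (n + 1))) :=
      sel_kap (fun z => sc4 D (mul4 g z)) f τ (n + 1)
    have h2 : sel6 (kcB f τ e1 e2 g) (r6 (Int.add n 3)) = mul4 (mul4 g (kap f τ (n + 3))) (e1, 0, e2, 0) :=
      sel_kap (fun z => mul4 (mul4 g z) (e1, 0, e2, 0)) f τ (n + 3)
    have h3 : sel6 (kcB f τ e1 (-e2) g) (r6 (Int.sub n 1)) = mul4 (mul4 g (kap f τ (n - 1))) (e1, 0, -e2, 0) :=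
      sel_kap (fun z => mul4 (mul4 g z) (e1, 0, -e2, 0)) f τ (n - 1)
    show (Int.add n 1, _) :: (Int.add n 3, _) :: (Int.sub n 1, _) :: colG f D e1 e2 (-e2) l = _
    rw [h1, h2, h3]
    rfl

/-- **the fast column is helper85's column** -/
theorem colF_eq (f : Bool) (K L : ℕ) (D e1 e2 : ℤ) (i : ℕ) : colF f K L D e1 e2 i = colL f K L D e1 e2 i :=
  colG_eq f D e1 e2 _

end Pool.Agent.Helper64.SH
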