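import Pool.Agent.Helper96.SH.D2F
import Pool.Agent.Helper64.SH.ColF

/-!
# Project RC, SHARP, cell engine: fast entries of the rows of `D2`

`entF .. = entJ ..` (helper96), the numerators are closed expressions depending only on the residue of the frequency
modulo 6, the kernel computes each of them once.
-/

namespace Pool.Agent.Helper64.SH

open Helper85.NS
open Helper96.SH (W4 gam wsel entL entI entJ tbP tbN)
open Helper54.RC.Fast (PF)
open Pool.Agent.Helper40.NR (Z4 sc4 mul4)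

/-- numerators: `2 ^ s' νn (a + b √3)`, `2 ^ s' νn (c + d √3)` -/
def nm (s' : ℕ) (R3 νn : ℤ) (x : Z4) : ℤ × ℤ :=
  (Int.mul (Int.add (Int.mul x.1 (Int.ofNat (Nat.pow 2 s'))) (Int.mul x.2.1 R3)) νn,
    Int.mul (Int.add (Int.mul x.2.2.1 (Int.ofNat (Nat.pow 2 s'))) (Int.mul x.2.2.2 R3)) νn)

/-- division by the frequency -/
def gm (den m : ℤ) (p : ℤ × ℤ) : ℤ × ℤ := match m with
  | Int.ofNat 0 => (Int.ediv p.2 den, Int.ediv (Int.neg p.1) den)
  | Int.ofNat (Nat.succ k) =>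
    (Int.ediv p.1 (Int.mul den (Int.ofNat (Nat.succ k))), Int.ediv p.2 (Int.mul den (Int.ofNat (Nat.succ k))))
  | Int.negSucc k =>
    (Int.ediv (Int.neg p.1) (Int.mul den (Int.ofNat (Nat.succ k))), Int.ediv p.2 (Int.mul den (Int.ofNat (Nat.succ k))))

/-- choice by the residue -/
def selP (c : ℕ → ℤ × ℤ) (r : ℕ) : ℤ × ℤ := match r with
  | 0 => c 0
  | 1 => c 1
  | 2 => c 2
  | 3 => c 3
  | 4 => c 4
  | _ => c 5

def etF (tP tN : List W4) (den m : ℤ) (c : ℕ → ℤ × ℤ) : ℤ × ℤ × W4 :=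
  ((gm den m (selP c (r6 m))).1, (gm den m (selP c (r6 m))).2, wsel tP tN m)

def nA (s' : ℕ) (R3 νn : ℤ) (f : Bool) (τ : Ty) (D : ℤ) (g : Z4) (r : ℕ) : ℤ × ℤ := nm s' R3 νn (kcA f τ D g r)
def nB (s' : ℕ) (R3 νn : ℤ) (f : Bool) (τ : Ty) (e1 e2 : ℤ) (g : Z4) (r : ℕ) : ℤ × ℤ := nm s' R3 νn (kcB f τ e1 e2 g r)

/-- the entries of a list of fields; `ne2 = - e2` -/
def enF (f : Bool) (tP tN : List W4) (s' : ℕ) (R3 νn den D e1 e2 ne2 : ℤ) : List (Ty × ℤ × Z4) → List (ℤ × ℤ × W4)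
  | [] => []
  | (τ, l, g) :: r => etF tP tN den (Int.add l 1) (nA s' R3 νn f τ D g) ::
      etF tP tN den (Int.add l 3) (nB s' R3 νn f τ e1 e2 g) ::
      etF tP tN den (Int.sub l 1) (nB s' R3 νn f τ e1 ne2 g) :: enF f tP tN s' R3 νn den D e1 e2 ne2 r

/-- **fast entries of the coordinate `i`** -/
def entF (tP1 tN1 tP2 tN2 : List W4) (s' K L : ℕ) (R3 D e1 e2 νn den : ℤ) (i : ℕ) : List (ℤ × ℤ × W4) :=
  enF true tP1 tN1 s' R3 νn den D e1 e2 (Int.neg e2) (fld K L i) ++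
    enF false tP2 tN2 s' R3 νn den D e1 e2 (Int.neg e2) (fld K L i)

theorem gam_eq (s' : ℕ) (R3 νn den m : ℤ) (c : Z4) : gam s' R3 νn den (m, c) = gm den m (nm s' R3 νn c) := by
  obtain ⟨a, b, c, d⟩ := c
  match m with
  | Int.ofNat 0 => rfl
  | Int.ofNat (k + 1) => rfl
  | Int.negSucc k => rfl

theorem selP_nm (s' : ℕ) (R3 νn : ℤ) (c : ℕ → Z4) (r : ℕ) :
    selP (fun r => nm s' R3 νn (c r)) r = nm s' R3 νn (sel6 c r) := by
  match r with
  | 0 => rfl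
  | 1 => rfl
  | 2 => rfl
  | 3 => rfl
  | 4 => rfl
  | _ + 5 => rfl

theorem etF_eq (tP tN : List W4) (s' : ℕ) (R3 νn den m : ℤ) (c : ℕ → Z4) :
    etF tP tN den m (fun r => nm s' R3 νn (c r)) = ((gam s' R3 νn den (m, sel6 c (r6 m))).1,
      (gam s' R3 νn den (m, sel6 c (r6 m))).2, wsel tP tN m) := by
  unfold etF
  rw [selP_nm, gam_eq]

theorem enF_eq (f : Bool) (tP tN : List W4) (s' : ℕ) (R3 νn den D e1 e2 ne2 : ℤ) (l : List (Ty × ℤ × Z4)) :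
    enF f tP tN s' R3 νn den D e1 e2 ne2 l = entL tP tN s' R3 νn den (colG f D e1 e2 ne2 l) := by
  induction l with
  | nil => rfl
  | cons x l ih =>
    obtain ⟨τ, n, g⟩ := x
    show etF tP tN den (Int.add n 1) (fun r => nm s' R3 νn (kcA f τ D g r)) ::
      etF tP tN den (Int.add n 3) (fun r => nm s' R3 νn (kcB f τ e1 e2 g r)) ::
      etF tP tN den (Int.sub n 1) (fun r => nm s' R3 νn (kcB f τ e1 ne2 g r)) ::
        enF f tP tN s' R3 νn den D e1 e2 ne2 l = _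
    rw [etF_eq, etF_eq, etF_eq, ih]
    rfl

/-- **the fast entries are helper96's** -/
theorem entF_eq (tP1 tN1 tP2 tN2 : List W4) (s' K L : ℕ) (R3 D e1 e2 νn den : ℤ) (i : ℕ) :
    entF tP1 tN1 tP2 tN2 s' K L R3 D e1 e2 νn den i = entJ tP1 tN1 tP2 tN2 s' K L R3 D e1 e2 νn den i := by
  unfold entF entJ
  rw [enF_eq, enF_eq, ← colF_eq, ← colF_eq]
  rfl

theorem entF_entI (b s' l1 K L : ℕ) (R3 D e1 e2 νn den : ℤ) (T1 T2 : List PF) (i : ℕ) :
    entF (tbP b l1 T1 0) (tbN b l1 T1 0) (tbP b l1 T2 0) (tbN b l1 T2 0) s' K L R3 D e1 e2 νn den i =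
      entI b s' l1 K L R3 D e1 e2 νn den T1 T2 i := entF_eq _ _ _ _ _ _ _ _ _ _ _ _ _ _

end Pool.Agent.Helper64.SH
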