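import Pool.Agent.Helper64.SH.Mu2

/-!
# Project RC, SHARP, cell engine: rows from one certified function per coordinate

`LR_re`, `LR_im`: a complex functional `X(v) = ∑ v_i ρ_i` with approximations `CA q (ρ i) (a i) (b i) e` gives two real
rows. `LR_fp_re`, `LR_fp_im`: `X(v) = ∑ v_i fc (F i) l` with `AP b s (P i) (F i)`: the rows are the digits of frequency
`l` of the tables `P i`. `LR_re_mul` etc.: multiplication of the functional by a Gaussian integer.
-/

open Finset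

namespace Pool.Agent.Helper64.SH

open Helper95.SH Helper95.RC
open Helper87.RC (BM)
open Helper56.RC (fc)
open Helper54.RC.Fast (FP PF AP)

/-- real part of a complex row -/
theorem LR_re {n : ℕ} {q e : ℝ} {X : (ℕ → ℝ) → ℂ} {ρ : ℕ → ℂ} {a b : ℕ → ℤ}
    (hX : ∀ v, v 0 = 1 → X v = ∑ i ∈ Finset.range n, (v i : ℂ) * ρ i) (h : ∀ i < n, CA q (ρ i) (a i) (b i) e) :
    LR n q (fun v => (X v).re) a e := by
  refine ⟨fun i => (ρ i).re, fun v hv => ?_, fun i hi => (ci_err (h i hi)).1⟩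
  beta_reduce
  rw [hX v hv, Complex.re_sum]
  exact Finset.sum_congr rfl fun i _ => by rw [Complex.re_ofReal_mul]; ring

/-- imaginary part of a complex row -/
theorem LR_im {n : ℕ} {q e : ℝ} {X : (ℕ → ℝ) → ℂ} {ρ : ℕ → ℂ} {a b : ℕ → ℤ}
    (hX : ∀ v, v 0 = 1 → X v = ∑ i ∈ Finset.range n, (v i : ℂ) * ρ i) (h : ∀ i < n, CA q (ρ i) (a i) (b i) e) :
    LR n q (fun v => (X v).im) b e := by
  refine ⟨fun i => (ρ i).im, fun v hv => ?_, fun i hi => (ci_err (h i hi)).2⟩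
  beta_reduce
  rw [hX v hv, Complex.im_sum]
  exact Finset.sum_congr rfl fun i _ => by rw [Complex.im_ofReal_mul]; ring

/-- conversely: two real rows give the complex row -/
theorem LR_cpx {n : ℕ} {q e : ℝ} {X : (ℕ → ℝ) → ℂ} {a b : ℕ → ℤ} (h1 : LR n q (fun v => (X v).re) a e)
    (h2 : LR n q (fun v => (X v).im) b e) :
    ∃ ρ : ℕ → ℂ, (∀ v, v 0 = 1 → X v = ∑ i ∈ Finset.range n, (v i : ℂ) * ρ i) ∧
      ∀ i < n, |q * (ρ i).re - a i| ≤ e ∧ |q * (ρ i).im - b i| ≤ e := by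
  obtain ⟨r, r1, r2⟩ := h1
  obtain ⟨s, s1, s2⟩ := h2
  refine ⟨fun i => (r i : ℂ) + (s i : ℂ) * Complex.I, fun v hv => ?_, fun i hi => ⟨by simpa using r2 i hi, by
    simpa using s2 i hi⟩⟩
  apply Complex.ext
  · rw [Complex.re_sum]
    have := r1 v hv
    beta_reduce at this
    rw [this]
    exact Finset.sum_congr rfl fun i _ => by rw [Complex.re_ofReal_mul]; simp; ring
  · rw [Complex.im_sum]
    have := s1 v hv
    beta_reduce at this
    rw [this]
    exact Finset.sum_congr rfl fun i _ => by rw [Complex.im_ofReal_mul]; simp; ring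

/-- **one certified function per coordinate, real part of the coefficient `l`** -/
theorem LR_fp_re {n b s : ℕ} {e : ℝ} {X : (ℕ → ℝ) → ℂ} {F : ℕ → ℝ → ℂ} {P : ℕ → PF} (l : ℤ)
    (hX : ∀ v, v 0 = 1 → X v = ∑ i ∈ Finset.range n, (v i : ℂ) * fc (F i) l) (hb : ∀ i < n, ∃ C, BM (F i) C)
    (h : ∀ i < n, AP b s (P i) (F i)) (he : ∀ i < n, ((P i).er : ℝ) ≤ e) :
    LR n (2 ^ s) (fun v => (X v).re) (fun i => dR b (P i).z l) e :=
  LR_re (b := fun i => dI b (P i).z l) hX fun i hi => by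
    obtain ⟨C, hC⟩ := hb i hi
    exact (CA_fc hC (h i hi) l).mono (he i hi)

/-- **imaginary part** -/
theorem LR_fp_im {n b s : ℕ} {e : ℝ} {X : (ℕ → ℝ) → ℂ} {F : ℕ → ℝ → ℂ} {P : ℕ → PF} (l : ℤ)
    (hX : ∀ v, v 0 = 1 → X v = ∑ i ∈ Finset.range n, (v i : ℂ) * fc (F i) l) (hb : ∀ i < n, ∃ C, BM (F i) C)
    (h : ∀ i < n, AP b s (P i) (F i)) (he : ∀ i < n, ((P i).er : ℝ) ≤ e) :
    LR n (2 ^ s) (fun v => (X v).im) (fun i => dI b (P i).z l) e :=
  LR_im (a := fun i => dR b (P i).z l) hX fun i hi => by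
    obtain ⟨C, hC⟩ := hb i hi
    exact (CA_fc hC (h i hi) l).mono (he i hi)

/-- product of two complex rows: `Re (X conj Y) = Re X Re Y + Im X Im Y` -/
theorem re_mul_conj2 (x y : ℂ) : (x * (starRingEnd ℂ) y).re = x.re * y.re + x.im * y.im := by
  simp [Complex.mul_re]

/-- multiplication of a complex functional by the Gaussian integer `g + i h`: real part -/
theorem LR_gi_re {n : ℕ} {q e : ℝ} {X : (ℕ → ℝ) → ℂ} {a b : ℕ → ℤ} (h1 : LR n q (fun v => (X v).re) a e)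
    (h2 : LR n q (fun v => (X v).im) b e) (g h : ℤ) :
    LR n q (fun v => (((g : ℂ) + Complex.I * (h : ℂ)) * X v).re) (fun i => g * a i - h * b i)
      ((|(g : ℝ)| + |(h : ℝ)|) * e) := by
  refine (((h1.smul g).sub (h2.smul h)).mono (by rw [add_mul])).congr (fun v _ => ?_) (fun i _ => rfl)
  simp [Complex.mul_re]

/-- imaginary part -/
theorem LR_gi_im {n : ℕ} {q e : ℝ} {X : (ℕ → ℝ) → ℂ} {a b : ℕ → ℤ} (h1 : LR n q (fun v => (X v).re) a e)
    (h2 : LR n q (fun v => (X v).im) b e) (g h : ℤ) :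
    LR n q (fun v => (((g : ℂ) + Complex.I * (h : ℂ)) * X v).im) (fun i => g * b i + h * a i)
      ((|(g : ℝ)| + |(h : ℝ)|) * e) := by
  refine (((h2.smul g).add (h1.smul h)).mono (by rw [add_mul])).congr (fun v _ => ?_) (fun i _ => rfl)
  simp [Complex.mul_im]

end Pool.Agent.Helper64.SH
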