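import Pool.Agent.Helper64.SH.Mu2

/-!
# Project RC, SHARP, cell engine: the row of the near multipliers at the scale of the tables

`LR_div`: division of an integer row by a power of two. `muR`, `LR_muR`: the row of `rwN N (fc f1) (fc f2)` at the scale
`2 ^ s` of the tables, error `7 e + 3`.
-/

open Finset

namespace Pool.Agent.Helper64.SH

open Helper95.SH Helper95.RC
open Helper87.RC (BM)
open Helper56.RC (fc)
open Helper54.RC.Fast (FP PF AP)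

/-- division of the row by `2 ^ t` (floor) -/
theorem LR_div {n S t : ℕ} {X : (ℕ → ℝ) → ℝ} {R : ℕ → ℤ} {e : ℝ} (h : LR n (2 ^ (S + t)) X R e) :
    LR n (2 ^ S) X (fun i => R i / 2 ^ t) (e / 2 ^ t + 1) := by
  obtain ⟨ρ, h1, h2⟩ := h
  refine ⟨ρ, h1, fun i hi => ?_⟩
  have ht : (0 : ℝ) < 2 ^ t := by positivity
  have htZ : (0 : ℤ) < 2 ^ t := by positivity
  have a1 := h2 i hi
  have m1 := Int.emod_nonneg (R i) htZ.ne'
  have m2 := Int.emod_lt_of_pos (R i) htZ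
  have m3 := Int.emod_add_mul_ediv (R i) (2 ^ t)
  have m3' : ((R i % 2 ^ t : ℤ) : ℝ) + 2 ^ t * ((R i / 2 ^ t : ℤ) : ℝ) = R i := by exact_mod_cast m3
  have m1' : (0 : ℝ) ≤ ((R i % 2 ^ t : ℤ) : ℝ) := by exact_mod_cast m1
  have m2' : ((R i % 2 ^ t : ℤ) : ℝ) ≤ 2 ^ t := by exact_mod_cast m2.le
  have e1 : 2 ^ S * ρ i - ((R i / 2 ^ t : ℤ) : ℝ) =
      (2 ^ (S + t) * ρ i - R i) / 2 ^ t + ((R i % 2 ^ t : ℤ) : ℝ) / 2 ^ t := by
    rw [← m3', pow_add]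
    field_simp
    ring
  rw [e1]
  refine (abs_add_le _ _).trans (add_le_add ?_ ?_)
  · rw [abs_div, abs_of_pos ht]
    exact div_le_div_of_nonneg_right a1 ht.le
  · rw [abs_div, abs_of_pos ht, abs_of_nonneg m1', div_le_one ht]
    exact m2'

/-- the row at the scale `2 ^ s` of the tables `z1`, `z2`; `T = ⌊2 ^ (s + 2) √3⌋` -/
def muR (K L b s : ℕ) (T : ℤ) (z1 z2 : FP) (i : ℕ) : ℤ :=
  muRow K L (2 ^ (s + 2)) T (dR b z1) (dI b z1) (dR b z2) (dI b z2) i / 2 ^ (s + 4)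

/-- **the row of the near multiplier**, error `7 e + 3`; the check `okUq (2 ^ (s + 2)) T` of `UR.lean` gives `hT` -/
theorem LR_muR {K L N : ℕ} (hK : ¬ Even K) (hL : Even L) (hKN : K ≤ N) (hLN : L ≤ N) {b s : ℕ} {p1 p2 : PF}
    {f1 f2 : ℝ → ℂ} (h1 : BM f1 1) (h2 : BM f2 1) (k1 : AP b s p1 f1) (k2 : AP b s p2 f2) {e : ℕ}
    (e1 : p1.er ≤ e) (e2 : p2.er ≤ e) (e3 : e ≤ 2 ^ s) {T : ℤ}
    (hT : |(((2 ^ (s + 2) : ℕ)) : ℝ) * Real.sqrt 3 - T| ≤ 1) :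
    LR (nt K L) (2 ^ s) (fun v => rwN N (fc f1) (fc f2) (pV K L v) (rV K L v) (sV K v)) (muR K L b s T p1.z p2.z)
      (7 * e + 3 : ℕ) := by
  have h := LR_mu_AP hK hL hKN hLN h1 h2 k1 k2 (e := e) (by exact_mod_cast e1) (by exact_mod_cast e2) hT
  have hq : ((4 * ((2 ^ (s + 2) : ℕ) : ℤ) : ℤ) : ℝ) * 2 ^ s = 2 ^ (s + (s + 4)) := by
    push_cast
    rw [pow_add, pow_add, pow_add]
    ring
  rw [hq] at h
  have k := LR_div h
  have e3' : (e : ℝ) ≤ 2 ^ s := by exact_mod_cast e3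
  have hs : (0 : ℝ) < 2 ^ s := by positivity
  refine k.mono ?_
  have e4 : (28 * ((2 ^ (s + 2) : ℕ) : ℝ) * e + 16 * 1 * (2 ^ s + e)) / 2 ^ (s + 4) + 1 =
      7 * e + (2 ^ s + e) / 2 ^ s + 1 := by
    push_cast
    rw [pow_add, pow_add]
    field_simp
    ring
  rw [e4]
  have e5 : ((2 : ℝ) ^ s + e) / 2 ^ s ≤ 2 := by
    rw [div_le_iff₀ hs]
    linarith
  push_cast
  linarith

end Pool.Agent.Helper64.SH
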